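import Pool.Agent.R867.Mov.Move

/-! Double covers of degree at most two in one variable and at most four in the others. -/

set_option autoImplicit false

namespace Pool.Agent.R867.Mov

open MvPolynomial

universe u v w

section

variable {k K : Type u} [Field k] [Field K] [Algebra k K]

/-- `a` is moved by no family -/
def Imm (k : Type u) {K : Type u} [Field k] [Field K] [Algebra k K] (a : K) : Prop :=
  ∀ (n : ℕ) (σ : K →ₐ[k] Rt n K), σ a ∈ Set.range (algebraMap K (Rt n K))

theorem Imm.map {a : K} (ha : Imm k a) (g : K →ₐ[k] K) : Imm k (g a) :=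
  fun n σ => ha n (σ.comp g)

theorem unirational_of_imm [IsAlgClosed k]
    (hfg : ∃ S : Finset K, IntermediateField.adjoin k (S : Set K) = ⊤)
    (h : ∀ a : K, Imm k a → a ∈ cl k (∅ : Set K)) : ∃ n, Nonempty (K →ₐ[k] Rt n k) := by
  rw [main hfg]
  intro a ha
  by_contra hmov
  have h1 : Imm k a := by
    intro n σ
    by_contra h2
    exact hmov ⟨n, σ, h2⟩
  have h2 := h a h1
  rw [mem_cl_iff, IntermediateField.adjoin_empty] at h2
  have h3 : IsAlgebraic k a := by
    obtain ⟨p, hp0, hp⟩ := h2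
    refine ⟨p.map (IntermediateField.botEquiv k K : _ →+* k), ?_, ?_⟩
    · exact (Polynomial.map_ne_zero_iff (IntermediateField.botEquiv k K).injective).mpr hp0
    · rw [Polynomial.aeval_def, Polynomial.eval₂_map]
      have h4 : (algebraMap k K).comp ((IntermediateField.botEquiv k K : _ →+* k)) =
          algebraMap (⊥ : IntermediateField k K) K := by
        ext z
        obtain ⟨c, rfl⟩ := (IntermediateField.botEquiv k K).symm.surjective z
        change algebraMap k K (IntermediateField.botEquiv k K _) = _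
        rw [AlgEquiv.apply_symm_apply]
        rfl
      rw [h4]
      exact hp
  apply ha
  exact minpoly.mem_range_of_degree_eq_one k a
    (IsAlgClosed.degree_eq_one_of_irreducible k (minpoly.irreducible h3.isIntegral))

/-- the general pattern: moving `x j` out of the algebraic closure of a set which contains the
images of the other elements -/
theorem step_out {Ω : Type v} [Field Ω] [Algebra k Ω] (σ : K →ₐ[k] Ω) {S : Set K} {a b : K}
    {R : Set Ω} (hS : ∀ z ∈ S, σ z ∈ cl k R) (ha : σ a ∈ cl k R) (hb : σ b ∉ cl k R)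
    (h : a ∈ cl k (insert b S)) : a ∈ cl k S := by
  by_contra h1
  have h2 := cl_map σ (cl_exch h h1)
  apply hb
  refine cl_sub ?_ h2
  rintro _ ⟨z, rfl | hz, rfl⟩
  · exact ha
  · exact hS z hz

variable {ι : Type w} [DecidableEq ι] {x : ι → K} {f : MvPolynomial ι k} {w : K}

/-- the generator of `Rt 1 K` -/
noncomputable def tt (K : Type u) [Field K] : Rt 1 K :=
  algebraMap (MvPolynomial (Fin 1) K) (Rt 1 K) (X 0)

theorem tt_not : ¬ IsAlgebraic K (tt K) := by
  have h := (algInd_X K 1).transcendental 0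
  exact h

/-- everything is algebraic over the coordinates -/
theorem mem_cl_all {r : ℕ} (hr : 1 ≤ r) (hw : w ^ r = aeval x f)
    (htop : IntermediateField.adjoin k (insert w (Set.range x)) = ⊤) (z : K) :
    z ∈ cl k (Set.range x) := by
  obtain ⟨R, hR⟩ := cl_closed (k := k) (Set.range x)
  have hwR : w ∈ cl k (Set.range x) := by
    have h1 : aeval x f ∈ cl k (Set.range x) := by
      rw [← hR]
      exact aeval_mem' R x (fun i => by
        have : x i ∈ (R : Set K) := by
          rw [hR]
          exact subset_cl _ ⟨i, rfl⟩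
        exact this) f
    rw [← hw] at h1
    exact IsAlgebraic.of_pow (by omega : 0 < r) h1
  have h2 : IntermediateField.adjoin k (insert w (Set.range x)) ≤ R := by
    rw [IntermediateField.adjoin_le_iff, hR]
    rintro y (rfl | hy)
    · exact hwR
    · exact subset_cl _ hy
  rw [htop] at h2
  have h3 : z ∈ (R : Set K) := h2 trivial
  rwa [hR] at h3

/-- the constants of `Rt n K` as a set -/
def con (n : ℕ) (K : Type u) [Field K] : Set (Rt n K) := Set.range (algebraMap K (Rt n K))

theorem mem_con_cl {n : ℕ} {z : Rt n K} (hz : z ∈ cl k (con n K)) : z ∈ con n K := by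
  apply mem_range_of_isAlgebraic
  obtain ⟨p, hp0, hp⟩ := hz
  have hle : Algebra.adjoin k (con n K) ≤ (IsScalarTower.toAlgHom k K (Rt n K)).range := by
    rw [Algebra.adjoin_le_iff]
    rintro _ ⟨y, rfl⟩
    exact ⟨y, rfl⟩
  have hch : ∀ c : Algebra.adjoin k (con n K), ∃ y : K, algebraMap K (Rt n K) y = c :=
    fun c => hle c.2
  choose g hg using hch
  have hinj := (algebraMap K (Rt n K)).injective
  let ρ : Algebra.adjoin k (con n K) →+* K :=
    { toFun := g
      map_one' := hinj (by rw [hg, map_one]; rfl)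
      map_zero' := hinj (by rw [hg, map_zero]; rfl)
      map_add' := fun a b => hinj (by rw [hg, map_add, hg, hg]; rfl)
      map_mul' := fun a b => hinj (by rw [hg, map_mul, hg, hg]; rfl) }
  have hρ : Function.Injective ρ := by
    intro a b hab
    apply Subtype.ext
    rw [← hg, ← hg]
    exact congrArg _ hab
  refine ⟨p.map ρ, (Polynomial.map_ne_zero_iff hρ).mpr hp0, ?_⟩
  rw [Polynomial.aeval_def, Polynomial.eval₂_map]
  have h4 : (algebraMap K (Rt n K)).comp ρ = algebraMap (Algebra.adjoin k (con n K)) (Rt n K) := by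
    ext c
    exact hg c
  rw [h4]
  exact hp

theorem rt_cl {n : ℕ} : ∀ z ∈ cl k (Set.range (algebraMap K (Rt n K))),
    z ∈ Set.range (algebraMap K (Rt n K)) := fun _ hz => mem_con_cl hz

/-- the family `x j + t` for a variable which does not occur -/
theorem trans_move (hx : AlgebraicIndependent k x) (hf : Irreducible f) {r : ℕ} (hr : 1 ≤ r)
    (hw : w ^ r = aeval x f)
    (htop : IntermediateField.adjoin k (insert w (Set.range x)) = ⊤) {j : ι}
    (h0 : degreeOf j f = 0) : ∃ σ : K →ₐ[k] Rt 1 K, (∀ i, i ≠ j → σ (x i) ∈ con 1 K) ∧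
      σ (x j) ∉ con 1 K :=
  trans_abs hx hf hr hw htop h0 rt_cl tt_not

/-- the conics `w² = A s² + B s + C` -/
theorem conic_move [CharZero k] (hx : AlgebraicIndependent k x) (hf : Irreducible f)
    (hw : w ^ 2 = aeval x f) (htop : IntermediateField.adjoin k (insert w (Set.range x)) = ⊤) {j : ι}
    (h2 : degreeOf j f ≤ 2) : ∃ σ : K →ₐ[k] Rt 1 K, (∀ i, i ≠ j → σ (x i) ∈ con 1 K) ∧
      σ (x j) ∉ con 1 K :=
  conic_abs hx hf hw htop h2 rt_cl tt_not

/-- The induction on the set of variables. -/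
theorem all_out [CharZero k] [Finite ι] (hx : AlgebraicIndependent k x) (hf : Irreducible f)
    {r : ℕ} (hr : 1 ≤ r) (hw : w ^ r = aeval x f)
    (htop : IntermediateField.adjoin k (insert w (Set.range x)) = ⊤)
    {I₀ : Set ι} (hbase : ∀ a : K, Imm k a → a ∈ cl k (x '' I₀ᶜ))
    (hself : ∀ j, j ∉ I₀ → 1 ≤ degreeOf j f →
      ∃ T : K →ₐ[k] K, (∀ i, i ≠ j → T (x i) = x i) ∧ T (x j) ∉ cl k (x '' I₀ᶜ)) :
    ∀ a : K, Imm k a → a ∈ cl k (∅ : Set K) := by
  have key : ∀ J : Set ι, J.Finite → (∀ j ∈ J, j ∉ I₀) → ∀ a : K, Imm k a →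
      a ∈ cl k (x '' (I₀ ∪ J)ᶜ) := by
    intro J hJ
    induction J, hJ using Set.Finite.induction_on with
    | empty =>
      intro _ a ha
      rw [Set.union_empty]
      exact hbase a ha
    | @insert j J hjJ hJ ih =>
      intro hI a ha
      have hjI : j ∉ I₀ := hI j (Set.mem_insert _ _)
      have ih' := ih (fun i hi => hI i (Set.mem_insert_of_mem _ hi))
      have hset : x '' (I₀ ∪ J)ᶜ = insert (x j) (x '' (I₀ ∪ insert j J)ᶜ) := by
        rw [← Set.image_insert_eq]
        congr 1
        ext i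
        simp only [Set.mem_compl_iff, Set.mem_union, Set.mem_insert_iff, not_or]
        constructor
        · rintro ⟨h1, h2⟩
          by_cases h3 : i = j
          · exact Or.inl h3
          · exact Or.inr ⟨h1, h3, h2⟩
        · rintro (rfl | ⟨h1, -, h2⟩)
          · exact ⟨hjI, hjJ⟩
          · exact ⟨h1, h2⟩
      have h1 := ih' a ha
      rw [hset] at h1
      rcases Nat.eq_zero_or_pos (degreeOf j f) with h0 | hpos
      · obtain ⟨σ, hσ1, hσ2⟩ := trans_move hx hf hr hw htop h0
        refine step_out σ (R := con 1 K) ?_ (subset_cl _ (ha 1 σ)) (fun h => hσ2 (mem_con_cl h)) h1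
        rintro _ ⟨i, hi, rfl⟩
        refine subset_cl _ (hσ1 i ?_)
        rintro rfl
        exact hi (Or.inr (Set.mem_insert _ _))
      · obtain ⟨T, hT1, hT2⟩ := hself j hjI hpos
        refine step_out T (R := x '' I₀ᶜ) ?_ ?_ hT2 h1
        · rintro _ ⟨i, hi, rfl⟩
          rw [hT1 i (by
            rintro rfl
            exact hi (Or.inr (Set.mem_insert _ _)))]
          refine subset_cl _ ⟨i, fun h => hi (Or.inl h), rfl⟩
        · exact hbase _ (ha.map T)
  intro a ha
  have h1 := key I₀ᶜ (Set.toFinite _) (fun j hj => hj) a ha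
  rwa [Set.union_compl_self, Set.compl_univ, Set.image_empty] at h1

/-- The base step for a direction `j` with a family. -/
theorem base_out {r : ℕ} (hr : 1 ≤ r) (hw : w ^ r = aeval x f)
    (htop : IntermediateField.adjoin k (insert w (Set.range x)) = ⊤) {j : ι}
    (σ : K →ₐ[k] Rt 1 K) (h1 : ∀ i, i ≠ j → σ (x i) ∈ con 1 K) (h2 : σ (x j) ∉ con 1 K)
    (a : K) (ha : Imm k a) : a ∈ cl k (x '' {j}ᶜ) := by
  refine step_out σ (R := con 1 K) ?_ (subset_cl _ (ha 1 σ)) (fun h => h2 (mem_con_cl h))
    (b := x j) ?_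
  · rintro _ ⟨i, hi, rfl⟩
    exact subset_cl _ (h1 i hi)
  · have h3 := mem_cl_all hr hw htop a
    refine cl_mono ?_ h3
    rintro _ ⟨i, rfl⟩
    by_cases hi : i = j
    · rw [hi]
      exact Set.mem_insert _ _
    · exact Set.mem_insert_of_mem _ ⟨i, hi, rfl⟩

theorem dc_main [IsAlgClosed k] [CharZero k] [Finite ι] (hf : Irreducible f) {i₀ : ι}
    (h1 : 1 ≤ degreeOf i₀ f) (h2 : degreeOf i₀ f ≤ 2) (h4 : ∀ j, degreeOf j f ≤ 4)
    (hx : AlgebraicIndependent k x) (hw : w ^ 2 = aeval x f)
    (htop : IntermediateField.adjoin k (insert w (Set.range x)) = ⊤) :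
    ∃ n, Nonempty (K →ₐ[k] Rt n k) := by
  refine unirational_of_imm ⟨((Set.toFinite (insert w (Set.range x))).toFinset), by
    rw [Set.Finite.coe_toFinset, htop]⟩ ?_
  obtain ⟨σ, hσ1, hσ2⟩ := conic_move hx hf hw htop h2
  refine all_out hx hf (r := 2) (by norm_num) hw htop (I₀ := {i₀}) ?_ ?_
  · exact base_out (r := 2) (by norm_num) hw htop σ hσ1 hσ2
  · intro j hj hpos
    obtain ⟨T, hT1, hT2⟩ := self2 hx hf hw htop hpos (h4 j)
    refine ⟨T, hT1, ?_⟩
    rw [hT2]
    exact notMem_cl_A hx hf (i₀ := i₀) hj (by simp) h1 (C2_dvd j f) (D2_dvd j f) (by norm_num)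
      (not_dvd_pderiv hpos)

end

end Pool.Agent.R867.Mov
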