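import Pool.Agent.R867.Mov.Step

/-! Moving one coordinate of a cyclic cover by a transcendental parameter. -/

set_option autoImplicit false

namespace Pool.Agent.R867.Mov

open MvPolynomial

universe u v w

section Abs

variable {k K : Type u} [Field k] [Field K] [Algebra k K] {Ω : Type v} [Field Ω] [Algebra K Ω]
  [Algebra k Ω] [IsScalarTower k K Ω] {ι : Type w} [DecidableEq ι] {x : ι → K}
  {f : MvPolynomial ι k} {w : K}

theorem move_aux (hx : AlgebraicIndependent k x) (hf : Irreducible f) {r : ℕ} (hr : 1 ≤ r)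
    (hw : w ^ r = aeval x f)
    (htop : IntermediateField.adjoin k (insert w (Set.range x)) = ⊤) {j : ι}
    (hcl : ∀ z ∈ cl k (Set.range (algebraMap K Ω)), z ∈ Set.range (algebraMap K Ω))
    (l w' : Ω) (hl : l ∉ Set.range (algebraMap K Ω)) {d : ℕ} (hd : degreeOf j f ≤ d)
    (hw' : w' ^ r = ∑ i ∈ Finset.range (d + 1),
      algebraMap K Ω (aeval x ((tay j f).coeff i)) * l ^ i) :
    ∃ σ : K →ₐ[k] Ω, (∀ i, i ≠ j → σ (x i) = algebraMap K Ω (x i)) ∧
      σ (x j) = algebraMap K Ω (x j) + l ∧ σ w = w' ∧ σ (x j) ∉ Set.range (algebraMap K Ω) := by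
  have hnot : algebraMap K Ω (x j) + l ∉ Set.range (algebraMap K Ω) := by
    rintro ⟨y, hy⟩
    apply hl
    exact ⟨y - x j, by rw [map_sub, hy, add_sub_cancel_left]⟩
  obtain ⟨y, hy⟩ : ∃ y : ι → Ω, ∀ i, y i = algebraMap K Ω (x i) := ⟨_, fun _ => rfl⟩
  have hy' : y = fun i => algebraMap K Ω (x i) := funext hy
  have hyi : AlgebraicIndependent k y := by
    rw [hy']
    exact hx.map' (f := IsScalarTower.toAlgHom k K Ω) (algebraMap K Ω).injective
  have hya : ∀ p : MvPolynomial ι k, aeval y p = algebraMap K Ω (aeval x p) := by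
    intro p
    rw [hy']
    exact MvPolynomial.aeval_algebraMap_apply _ _ _
  have hsub : y '' {j}ᶜ ⊆ Set.range (algebraMap K Ω) := by
    rintro _ ⟨i, -, rfl⟩
    exact ⟨x i, (hy i).symm⟩
  have hind := indep_update hyi (j := j) (z := y j + l) (by
    intro h
    apply hnot
    rw [hy] at h
    exact hcl _ (cl_mono hsub h))
  obtain ⟨σ, hσ, hσw⟩ := exists_hom hf hr hx hw htop hind (w' := w') (by
    rw [tay_sum y j l f hd, hw']
    exact Finset.sum_congr rfl fun i _ => by rw [hya])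
  refine ⟨σ, fun i hi => ?_, ?_, hσw, ?_⟩
  · rw [hσ, Function.update_of_ne hi, hy]
  · rw [hσ, Function.update_self, hy]
  · rw [hσ, Function.update_self, hy]
    exact hnot

/-- the family `x j + t` for a variable which does not occur -/
theorem trans_abs (hx : AlgebraicIndependent k x) (hf : Irreducible f) {r : ℕ} (hr : 1 ≤ r)
    (hw : w ^ r = aeval x f)
    (htop : IntermediateField.adjoin k (insert w (Set.range x)) = ⊤) {j : ι}
    (h0 : degreeOf j f = 0)
    (hcl : ∀ z ∈ cl k (Set.range (algebraMap K Ω)), z ∈ Set.range (algebraMap K Ω))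
    {t : Ω} (ht : ¬ IsAlgebraic K t) :
    ∃ σ : K →ₐ[k] Ω, (∀ i, i ≠ j → σ (x i) ∈ Set.range (algebraMap K Ω)) ∧
      σ (x j) ∉ Set.range (algebraMap K Ω) := by
  obtain ⟨σ, h1, -, -, h4⟩ := move_aux hx hf hr hw htop hcl t (algebraMap K Ω w) (j := j) (by
    rintro ⟨y, rfl⟩
    exact ht (isAlgebraic_algebraMap _)) h0.le (by
    rw [Finset.sum_range_one, pow_zero, mul_one, tay_zero, ← hw, map_pow])
  exact ⟨σ, fun i hi => ⟨x i, (h1 i hi).symm⟩, h4⟩

theorem poly_abs {t : Ω} (ht : ¬ IsAlgebraic K t) (a b c : K)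
    (habc : algebraMap K Ω a * t ^ 2 + algebraMap K Ω b * t + algebraMap K Ω c = 0) :
    a = 0 ∧ b = 0 := by
  by_contra hab
  apply ht
  refine ⟨Polynomial.C a * Polynomial.X ^ 2 + Polynomial.C b * Polynomial.X + Polynomial.C c,
    ?_, ?_⟩
  · intro h0
    apply hab
    have e2 := congrArg (fun p => Polynomial.coeff p 2) h0
    have e1 := congrArg (fun p => Polynomial.coeff p 1) h0
    simp [Polynomial.coeff_X, Polynomial.coeff_C] at e2 e1
    exact ⟨e2, e1⟩
  · simp only [map_add, map_mul, map_pow, Polynomial.aeval_C, Polynomial.aeval_X]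
    exact habc

/-- the conics `w² = A s² + B s + C` -/
theorem conic_abs [CharZero k] (hx : AlgebraicIndependent k x) (hf : Irreducible f)
    (hw : w ^ 2 = aeval x f) (htop : IntermediateField.adjoin k (insert w (Set.range x)) = ⊤) {j : ι}
    (h2 : degreeOf j f ≤ 2)
    (hcl : ∀ z ∈ cl k (Set.range (algebraMap K Ω)), z ∈ Set.range (algebraMap K Ω))
    {t : Ω} (ht : ¬ IsAlgebraic K t) :
    ∃ σ : K →ₐ[k] Ω, (∀ i, i ≠ j → σ (x i) ∈ Set.range (algebraMap K Ω)) ∧
      σ (x j) ∉ Set.range (algebraMap K Ω) := by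
  have hcK : CharZero K := charZero_of_injective_algebraMap (algebraMap k K).injective
  have hF : aeval x f ≠ 0 := fun h0 => hf.ne_zero (hx (h0.trans (map_zero _).symm))
  have hw0 : w ≠ 0 := by
    rintro rfl
    apply hF
    rw [← hw]
    norm_num
  obtain ⟨A, hA⟩ : ∃ A, aeval x ((tay j f).coeff 2) = A := ⟨_, rfl⟩
  obtain ⟨B, hB⟩ : ∃ B, aeval x (pderiv j f) = B := ⟨_, rfl⟩
  obtain ⟨a, ha⟩ : ∃ a, algebraMap K Ω A = a := ⟨_, rfl⟩
  obtain ⟨b, hb⟩ : ∃ b, algebraMap K Ω B = b := ⟨_, rfl⟩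
  obtain ⟨v, hv⟩ : ∃ v, algebraMap K Ω w = v := ⟨_, rfl⟩
  have hden : t ^ 2 - a ≠ 0 := by
    intro h0
    have := (poly_abs ht 1 0 (-A) (by rw [map_one, map_zero, map_neg, ha]; linear_combination h0)).1
    exact one_ne_zero this
  obtain ⟨l, hl⟩ : ∃ l, l = (b - 2 * v * t) / (t ^ 2 - a) := ⟨_, rfl⟩
  have hl' : l * (t ^ 2 - a) = b - 2 * v * t := by
    rw [hl]
    exact div_mul_cancel₀ _ hden
  have hnot : l ∉ Set.range (algebraMap K Ω) := by
    rintro ⟨y, rfl⟩
    have h3 := (poly_abs ht y (2 * w) (-y * A - B) (by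
      rw [map_sub, map_mul, map_mul, map_neg, map_ofNat, ha, hb, hv]
      linear_combination hl')).2
    exact hw0 ((mul_eq_zero.mp h3).resolve_left two_ne_zero)
  obtain ⟨σ, h1, -, -, h4⟩ := move_aux hx hf (r := 2) (by norm_num) hw htop hcl l (v + t * l)
    (j := j) hnot h2 (by
    rw [Finset.sum_range_succ, Finset.sum_range_succ, Finset.sum_range_one, tay_zero, tay_one,
      hA, hB, ← hw, map_pow, ha, hb, hv]
    linear_combination l * hl')
  exact ⟨σ, fun i hi => ⟨x i, (h1 i hi).symm⟩, h4⟩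

end Abs

end Pool.Agent.R867.Mov
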