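import Pool.Agent.R867.Mov.NA

/-! Self-maps along the genus one fibrations of double and triple covers. -/

set_option autoImplicit false

namespace Pool.Agent.R867.Mov

open MvPolynomial

universe u v w

section

variable {k : Type u} [Field k] {ι : Type w} [DecidableEq ι]

/-- replacing one coordinate by an element which is not algebraic over the others -/
theorem indep_update {K : Type v} [Field K] [Algebra k K] {x : ι → K}
    (hx : AlgebraicIndependent k x) {j : ι} {z : K} (hz : z ∉ cl k (x '' {j}ᶜ)) :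
    AlgebraicIndependent k (Function.update x j z) := by
  rw [AlgebraicIndependent.iff_transcendental_adjoin_image j]
  constructor
  · have h1 := hx.comp (Subtype.val : {i // i ≠ j} → ι) Subtype.val_injective
    have h2 : (fun i : {i // i ≠ j} => Function.update x j z i) = x ∘ Subtype.val := by
      funext i
      rw [Function.update_of_ne i.2]
      rfl
    rw [h2]
    exact h1
  · have h2 : Function.update x j z '' {j}ᶜ = x '' {j}ᶜ := by
      apply Set.image_congr
      intro i hi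
      rw [Function.update_of_ne hi]
    rw [h2, Function.update_self]
    exact hz

/-- numerator for double covers -/
noncomputable def C2 (j : ι) (f : MvPolynomial ι k) : MvPolynomial ι k :=
  8 * (8 * f ^ 2 * (tay j f).coeff 3 - 4 * f * pderiv j f * (tay j f).coeff 2 + pderiv j f ^ 3)

/-- denominator for double covers -/
noncomputable def D2 (j : ι) (f : MvPolynomial ι k) : MvPolynomial ι k :=
  (4 * f * (tay j f).coeff 2 - pderiv j f ^ 2) ^ 2 - 64 * f ^ 3 * (tay j f).coeff 4

theorem C2_dvd (j : ι) (f : MvPolynomial ι k) : f ∣ C2 j f - C 8 * pderiv j f ^ 3 := by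
  refine ⟨8 * (8 * f * (tay j f).coeff 3 - 4 * pderiv j f * (tay j f).coeff 2), ?_⟩
  unfold C2
  rw [show (C (8 : k) : MvPolynomial ι k) = 8 by exact map_ofNat C 8]
  ring

theorem D2_dvd (j : ι) (f : MvPolynomial ι k) : f ∣ D2 j f - pderiv j f ^ (3 + 1) := by
  refine ⟨16 * f * (tay j f).coeff 2 ^ 2 - 8 * (tay j f).coeff 2 * pderiv j f ^ 2 -
    64 * f ^ 2 * (tay j f).coeff 4, ?_⟩
  unfold D2
  ring

/-- numerator for triple covers -/
noncomputable def C3 (j : ι) (f : MvPolynomial ι k) : MvPolynomial ι k :=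
  9 * (3 * f * (tay j f).coeff 2 - pderiv j f ^ 2)

/-- denominator for triple covers -/
noncomputable def D3 (j : ι) (f : MvPolynomial ι k) : MvPolynomial ι k :=
  pderiv j f ^ 3 - 27 * f ^ 2 * (tay j f).coeff 3

theorem C3_dvd (j : ι) (f : MvPolynomial ι k) : f ∣ C3 j f - C (-9) * pderiv j f ^ 2 := by
  refine ⟨27 * (tay j f).coeff 2, ?_⟩
  unfold C3
  rw [show (C (-9 : k) : MvPolynomial ι k) = -9 by rw [C_neg]; exact congrArg _ (map_ofNat C 9)]
  ring

theorem D3_dvd (j : ι) (f : MvPolynomial ι k) : f ∣ D3 j f - pderiv j f ^ (2 + 1) := by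
  refine ⟨- 27 * f * (tay j f).coeff 3, ?_⟩
  unfold D3
  ring

theorem ne_zero_of_dvd {f D q : MvPolynomial ι k} (hf : Irreducible f) {m : ℕ}
    (hD : f ∣ D - q ^ (m + 1)) (hq : ¬ f ∣ q) : D ≠ 0 := by
  rintro rfl
  rw [zero_sub, dvd_neg] at hD
  exact hq (hf.prime.dvd_of_dvd_pow hD)

/-- the algebra of the self-map of a double cover -/
theorem ident2 {K : Type v} [Field K] [CharZero K] {F a1 a2 a3 a4 h w : K} (hF : F ≠ 0)
    (hw : w ^ 2 = F) (hh : h * ((4 * F * a2 - a1 ^ 2) ^ 2 - 64 * F ^ 3 * a4) =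
      F * (8 * (8 * F ^ 2 * a3 - 4 * F * a1 * a2 + a1 ^ 3))) :
    (w * (8 * F ^ 2 + 4 * F * a1 * h + (4 * F * a2 - a1 ^ 2) * h ^ 2) / (8 * F ^ 2)) ^ 2 =
      F + a1 * h + a2 * h ^ 2 + a3 * h ^ 3 + a4 * h ^ 4 := by
  have h1 : (8 * F ^ 2 + 4 * F * a1 * h + (4 * F * a2 - a1 ^ 2) * h ^ 2) ^ 2 =
      64 * F ^ 3 * (F + a1 * h + a2 * h ^ 2 + a3 * h ^ 3 + a4 * h ^ 4) := by
    linear_combination h ^ 3 * hh
  rw [div_pow, mul_pow, h1, hw]
  field_simp
  ring

/-- the algebra of the self-map of a triple cover -/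
theorem ident3 {K : Type v} [Field K] [CharZero K] {F a1 a2 a3 h w : K} (hF : F ≠ 0)
    (hw : w ^ 3 = F) (hh : h * (a1 ^ 3 - 27 * F ^ 2 * a3) =
      F * (9 * (3 * F * a2 - a1 ^ 2))) :
    (w * (3 * F + a1 * h) / (3 * F)) ^ 3 = F + a1 * h + a2 * h ^ 2 + a3 * h ^ 3 := by
  have h1 : (3 * F + a1 * h) ^ 3 = 27 * F ^ 2 * (F + a1 * h + a2 * h ^ 2 + a3 * h ^ 3) := by
    linear_combination h ^ 2 * hh
  rw [div_pow, mul_pow, h1, hw]
  field_simp
  ring

variable [CharZero k] {K : Type v} [Field K] [Algebra k K] {x : ι → K} {f : MvPolynomial ι k}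
  {w : K}

theorem self2 (hx : AlgebraicIndependent k x) (hf : Irreducible f) (hw : w ^ 2 = aeval x f)
    (htop : IntermediateField.adjoin k (insert w (Set.range x)) = ⊤) {j : ι}
    (h1 : 1 ≤ degreeOf j f) (h4 : degreeOf j f ≤ 4) :
    ∃ T : K →ₐ[k] K, (∀ i, i ≠ j → T (x i) = x i) ∧
      T (x j) = x j + aeval x (f * C2 j f) / aeval x (D2 j f) := by
  have hcK : CharZero K := charZero_of_injective_algebraMap (algebraMap k K).injective
  have hq := not_dvd_pderiv h1
  have hD0 := ne_zero_of_dvd hf (D2_dvd j f) hq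
  have hD : aeval x (D2 j f) ≠ 0 := fun h0 => hD0 (hx (h0.trans (map_zero _).symm))
  have hF : aeval x f ≠ 0 := fun h0 => hf.ne_zero (hx (h0.trans (map_zero _).symm))
  obtain ⟨h, hh⟩ : ∃ h, h = aeval x (f * C2 j f) / aeval x (D2 j f) := ⟨_, rfl⟩
  have hnot := notMem_cl_B hx hf h1 (C2_dvd j f) (D2_dvd j f) (by norm_num) hq
  rw [← hh] at hnot ⊢
  have hind := indep_update hx hnot
  have hid := ident2 (a1 := aeval x (pderiv j f)) (a2 := aeval x ((tay j f).coeff 2))
    (a3 := aeval x ((tay j f).coeff 3)) (a4 := aeval x ((tay j f).coeff 4)) (h := h) hF hw (by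
      have h5 : h * aeval x (D2 j f) = aeval x (f * C2 j f) := by
        rw [hh]
        exact div_mul_cancel₀ _ hD
      unfold C2 D2 at h5
      simp only [map_sub, map_mul, map_add, map_pow, map_ofNat] at h5
      exact h5)
  obtain ⟨T, hT, -⟩ := exists_hom hf (r := 2) (by norm_num) hx hw htop hind
    (w' := w * (8 * aeval x f ^ 2 + 4 * aeval x f * aeval x (pderiv j f) * h +
      (4 * aeval x f * aeval x ((tay j f).coeff 2) - aeval x (pderiv j f) ^ 2) * h ^ 2) /
      (8 * aeval x f ^ 2)) (by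
      rw [tay_sum x j h f h4, hid, Finset.sum_range_succ, Finset.sum_range_succ,
        Finset.sum_range_succ, Finset.sum_range_succ, Finset.sum_range_one, tay_zero, tay_one]
      ring)
  refine ⟨T, fun i hi => ?_, ?_⟩
  · rw [hT, Function.update_of_ne hi]
  · rw [hT, Function.update_self]

theorem self3 (hx : AlgebraicIndependent k x) (hf : Irreducible f) (hw : w ^ 3 = aeval x f)
    (htop : IntermediateField.adjoin k (insert w (Set.range x)) = ⊤) {j : ι}
    (h1 : 1 ≤ degreeOf j f) (h3 : degreeOf j f ≤ 3) :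
    ∃ T : K →ₐ[k] K, (∀ i, i ≠ j → T (x i) = x i) ∧
      T (x j) = x j + aeval x (f * C3 j f) / aeval x (D3 j f) := by
  have hcK : CharZero K := charZero_of_injective_algebraMap (algebraMap k K).injective
  have hq := not_dvd_pderiv h1
  have hD0 := ne_zero_of_dvd hf (D3_dvd j f) hq
  have hD : aeval x (D3 j f) ≠ 0 := fun h0 => hD0 (hx (h0.trans (map_zero _).symm))
  have hF : aeval x f ≠ 0 := fun h0 => hf.ne_zero (hx (h0.trans (map_zero _).symm))
  obtain ⟨h, hh⟩ : ∃ h, h = aeval x (f * C3 j f) / aeval x (D3 j f) := ⟨_, rfl⟩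
  have hnot := notMem_cl_B hx hf h1 (C3_dvd j f) (D3_dvd j f) (by norm_num) hq
  rw [← hh] at hnot ⊢
  have hind := indep_update hx hnot
  have hid := ident3 (a1 := aeval x (pderiv j f)) (a2 := aeval x ((tay j f).coeff 2))
    (a3 := aeval x ((tay j f).coeff 3)) (h := h) hF hw (by
      have h5 : h * aeval x (D3 j f) = aeval x (f * C3 j f) := by
        rw [hh]
        exact div_mul_cancel₀ _ hD
      unfold C3 D3 at h5
      simp only [map_sub, map_mul, map_pow, map_ofNat] at h5
      exact h5)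
  obtain ⟨T, hT, -⟩ := exists_hom hf (r := 3) (by norm_num) hx hw htop hind
    (w' := w * (3 * aeval x f + aeval x (pderiv j f) * h) / (3 * aeval x f)) (by
      rw [tay_sum x j h f h3, hid, Finset.sum_range_succ, Finset.sum_range_succ,
        Finset.sum_range_succ, Finset.sum_range_one, tay_zero, tay_one]
      ring)
  refine ⟨T, fun i hi => ?_, ?_⟩
  · rw [hT, Function.update_of_ne hi]
  · rw [hT, Function.update_self]

end

end Pool.Agent.R867.Mov
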