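import Pool.Agent.R867.Mov.Main

/-! Algebraic closure operator, homomorphisms from function fields of cyclic covers. -/

set_option autoImplicit false

namespace Pool.Agent.R867.Mov

open MvPolynomial IntermediateField

universe u v w

section Cl

variable (k : Type u) {K : Type v} [Field k] [Field K] [Algebra k K]

/-- the elements which are algebraic over the field generated by `S` -/
def cl (S : Set K) : Set K := {z | IsAlgebraic (Algebra.adjoin k S) z}

variable {k}

theorem mem_cl {S : Set K} {z : K} : z ∈ cl k S ↔ IsAlgebraic (Algebra.adjoin k S) z := Iff.rfl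

theorem cl_eq (S : Set K) : (AlgebraicIndependent.matroid k K).closure S = cl k S := by
  rw [AlgebraicIndependent.matroid_closure_eq]
  rfl

theorem cl_mono {S T : Set K} (h : S ⊆ T) : cl k S ⊆ cl k T := by
  rw [← cl_eq, ← cl_eq]
  exact Matroid.closure_subset_closure _ h

theorem subset_cl (S : Set K) : S ⊆ cl k S := by
  rw [← cl_eq]
  exact Matroid.subset_closure _ _ (by rw [AlgebraicIndependent.matroid_e]; exact Set.subset_univ _)

theorem cl_sub {S T : Set K} (h : S ⊆ cl k T) : cl k S ⊆ cl k T := by
  rw [← cl_eq] at h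
  rw [← cl_eq, ← cl_eq]
  have := Matroid.closure_subset_closure (AlgebraicIndependent.matroid k K) h
  rwa [Matroid.closure_closure] at this

theorem cl_exch {S : Set K} {a b : K} (h1 : a ∈ cl k (insert b S)) (h2 : a ∉ cl k S) :
    b ∈ cl k (insert a S) := by
  rw [← cl_eq] at h1 h2 ⊢
  exact (Matroid.closure_exchange ⟨h1, h2⟩).1

theorem mem_cl_iff {S : Set K} {z : K} :
    z ∈ cl k S ↔ IsAlgebraic (IntermediateField.adjoin k S) z := by
  rw [mem_cl, ← isAlgebraic_adjoin_iff]

theorem cl_map {Ω : Type w} [Field Ω] [Algebra k Ω] (σ : K →ₐ[k] Ω) {S : Set K} {z : K}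
    (h : z ∈ cl k S) : σ z ∈ cl k (σ '' S) := by
  obtain ⟨p, hp0, hp⟩ := h
  have hle : ∀ a : Algebra.adjoin k S, σ a ∈ Algebra.adjoin k (σ '' S) := by
    intro a
    have h1 := Algebra.adjoin_image k σ S
    change σ (a : K) ∈ Algebra.adjoin k (σ '' S)
    rw [← AlgHom.map_adjoin]
    exact ⟨a, a.2, rfl⟩
  let ρ : Algebra.adjoin k S →+* Algebra.adjoin k (σ '' S) :=
    ((σ : K →+* Ω).comp (algebraMap (Algebra.adjoin k S) K)).codRestrict _ hle
  have hρ : Function.Injective ρ := by
    intro a b hab
    have := congrArg Subtype.val hab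
    exact Subtype.ext (σ.toRingHom.injective this)
  refine ⟨p.map ρ, (Polynomial.map_ne_zero_iff hρ).mpr hp0, ?_⟩
  have h2 := congrArg σ hp
  rw [map_zero] at h2
  rw [← h2, Polynomial.aeval_def, Polynomial.aeval_def, Polynomial.eval₂_map]
  change _ = (σ : K →+* Ω) _
  rw [Polynomial.hom_eval₂]
  rfl

theorem notMem_cl {ι : Type*} {x : ι → K} (hx : AlgebraicIndependent k x) {J : Set ι} {j : ι}
    (hj : j ∉ J) : x j ∉ cl k (x '' J) := fun h => hx.transcendental_adjoin hj h

theorem cl_closed (S : Set K) : ∃ R : IntermediateField k K, (R : Set K) = cl k S := by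
  refine ⟨(algebraicClosure (IntermediateField.adjoin k S) K).restrictScalars k, ?_⟩
  ext z
  rw [mem_cl_iff]
  exact mem_algebraicClosure_iff

/-- an algebraic element of a purely transcendental extension -/
theorem mem_adjoin_of_cl {ι : Type*} {x : ι → K} (hx : AlgebraicIndependent k x) (S : Set ι)
    {z : K} (hz : z ∈ IntermediateField.adjoin k (Set.range x)) (hc : z ∈ cl k (x '' S)) :
    z ∈ IntermediateField.adjoin k (x '' S) := by
  obtain ⟨F, hF⟩ : ∃ F, F = IntermediateField.adjoin k (x '' S) := ⟨_, rfl⟩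
  have h1 := ((AlgebraicIndependent.iff_adjoin_image S).mp hx).2
  have h2 : AlgebraicIndependent F (fun i : (Sᶜ : Set ι) => x i) := by
    rw [hF, algebraicIndependent_adjoin_iff]
    exact h1
  have hld := linDisj (F := F) _ h2.algebraicClosure
  obtain ⟨A, hA⟩ : ∃ A : IntermediateField F K,
    A = IntermediateField.adjoin F (Set.range fun i : (Sᶜ : Set ι) => x i) := ⟨_, rfl⟩
  rw [← hA] at hld
  have h3 : z ∈ A := by
    have h5 : ∀ i, x i ∈ A := by
      intro i
      by_cases hi : i ∈ S
      · have h5 : x i ∈ F := by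
          rw [hF]
          exact IntermediateField.subset_adjoin _ _ ⟨i, hi, rfl⟩
        have h9 : algebraMap F K ⟨x i, h5⟩ ∈ A := A.algebraMap_mem _
        exact h9
      · rw [hA]
        exact IntermediateField.subset_adjoin _ _ ⟨⟨i, hi⟩, rfl⟩
    have h4 : IntermediateField.adjoin k (Set.range x) ≤ A.restrictScalars k := by
      rw [IntermediateField.adjoin_le_iff]
      rintro _ ⟨i, rfl⟩
      have h9 := h5 i
      exact h9
    have h9 := h4 hz
    rwa [IntermediateField.mem_restrictScalars] at h9
  have h6 : z ∈ algebraicClosure F K := by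
    rw [mem_algebraicClosure_iff]
    rw [mem_cl_iff, ← hF] at hc
    exact hc
  have h7 := hld.inf_eq_bot
  have h8 : z ∈ (⊥ : IntermediateField F K) := by
    rw [← h7]
    exact ⟨h3, h6⟩
  rw [IntermediateField.mem_bot] at h8
  obtain ⟨y, hy⟩ := h8
  rw [← hF, ← hy]
  exact y.2

end Cl

/-- `K` is algebraically closed in the field of rational functions over `K`. -/
theorem mem_range_of_isAlgebraic {K : Type u} [Field K] {n : ℕ} {z : Rt n K}
    (hz : IsAlgebraic K z) : z ∈ Set.range (algebraMap K (Rt n K)) := by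
  have h1 := mem_adjoin_of_cl (algInd_X K n) ∅ (z := z) (by
    rw [adjoin_X]
    trivial) (by
    rw [mem_cl_iff]
    exact hz.extendScalars (algebraMap K (IntermediateField.adjoin K _)).injective)
  rw [Set.image_empty, IntermediateField.adjoin_empty, IntermediateField.mem_bot] at h1
  exact h1

/-- Homomorphisms are determined by the kernels. -/
theorem embedG {k : Type u} {S : Type*} {K : Type v} {E : Type w} [Field k] [CommRing S]
    [Algebra k S] [Field K] [Field E] [Algebra k K] [Algebra k E] (e : S →ₐ[k] K) (e' : S →ₐ[k] E)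
    (h : ∀ p, e p = 0 ↔ e' p = 0) (hfrac : ∀ f : K, ∃ p q, e q ≠ 0 ∧ f * e q = e p) :
    ∃ φ : K →ₐ[k] E, ∀ p, φ (e p) = e' p := by
  choose P Q hQ hP using hfrac
  have hQc : ∀ q, e q ≠ 0 → e' q ≠ 0 := fun q hq h0 => hq ((h q).mpr h0)
  have key : ∀ (f : K) (p q : S), e q ≠ 0 → f * e q = e p → e' (P f) / e' (Q f) = e' p / e' q := by
    intro f p q hq hf
    rw [div_eq_div_iff (hQc _ (hQ f)) (hQc _ hq), ← map_mul, ← map_mul, ← sub_eq_zero, ← map_sub,
      ← h]
    rw [map_sub, map_mul, map_mul, ← hP, ← hf]
    ring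
  let φ : K →ₐ[k] E :=
    { toFun := fun f => e' (P f) / e' (Q f)
      map_one' := by
        rw [key 1 1 1 (by simp) (by simp)]
        simp
      map_mul' := by
        intro f g
        rw [key (f * g) (P f * P g) (Q f * Q g) (by
          rw [map_mul]; exact mul_ne_zero (hQ f) (hQ g)) (by
          rw [map_mul, map_mul, ← hP, ← hP]; ring), map_mul, map_mul, mul_div_mul_comm]
      map_zero' := by
        change e' (P 0) / e' (Q 0) = 0
        rw [key 0 0 1 (by simp) (by simp)]
        simp
      map_add' := by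
        intro f g
        change e' (P (f + g)) / e' (Q (f + g)) = e' (P f) / e' (Q f) + e' (P g) / e' (Q g)
        rw [key (f + g) (P f * Q g + P g * Q f) (Q f * Q g) (by
          rw [map_mul]; exact mul_ne_zero (hQ f) (hQ g)) (by
          rw [map_mul, map_add, map_mul, map_mul, ← hP, ← hP]; ring), map_add, map_mul, map_mul,
          map_mul, div_add_div _ _ (hQc _ (hQ f)) (hQc _ (hQ g))]
        ring
      commutes' := by
        intro a
        change e' (P _) / e' (Q _) = _
        rw [key _ (algebraMap k S a) 1 (by simp) (by simp)]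
        simp }
  refine ⟨φ, fun p => ?_⟩
  change e' (P (e p)) / e' (Q (e p)) = _
  rw [key _ p 1 (by simp) (by simp)]
  simp

end Pool.Agent.R867.Mov
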