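import Mathlib

/-! Purely transcendental extensions and linear disjointness. -/

set_option autoImplicit false

namespace Pool.Agent.R867.Mov

open MvPolynomial IntermediateField

universe u v w

/-- The field of rational functions in `n` variables over `K`. -/
abbrev Rt (n : ℕ) (K : Type u) [Field K] : Type u := FractionRing (MvPolynomial (Fin n) K)

theorem aeval_mem' {F : Type u} {E : Type v} [Field F] [Field E] [Algebra F E] {ι : Type*}
    (S : IntermediateField F E) (s : ι → E) (h : ∀ i, s i ∈ S) (p : MvPolynomial ι F) :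
    aeval s p ∈ S := by
  rw [aeval_def, eval₂_eq]
  exact sum_mem fun d _ => mul_mem (S.algebraMap_mem _) (prod_mem fun i _ => pow_mem (h i) _)

section LD

variable {F : Type u} {L : Type v} {E : Type w} [Field F] [Field L] [Field E] [Algebra F L]
  [Algebra L E] [Algebra F E] [IsScalarTower F L E]

theorem linDisj {ι : Type*} (s : ι → E) (hs : AlgebraicIndependent L s) :
    (adjoin F (Set.range s)).LinearDisjoint L := by
  classical
  refine LinearDisjoint.of_basis_right' (Module.Basis.ofVectorSpace F L) ?_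
  set b := Module.Basis.ofVectorSpace F L with hb
  rw [linearIndependent_iff']
  intro J g hg i hi
  have h1 : ∀ j, ∃ r q : MvPolynomial ι F, aeval s q ≠ 0 ∧ (g j : E) * aeval s q = aeval s r := by
    intro j
    have h2 := (g j).2
    rw [mem_adjoin_range_iff] at h2
    obtain ⟨r, q, hrq⟩ := h2
    by_cases hq : aeval s q = 0
    · rw [hq, div_zero] at hrq
      exact ⟨0, 1, by simp, by simp [hrq]⟩
    · exact ⟨r, q, hq, by rw [hrq, div_mul_cancel₀ _ hq]⟩
  choose r q hq hr using h1
  have hQ : ∀ j ∈ J, (g j : E) * aeval s (∏ l ∈ J, q l) =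
      aeval s (r j * ∏ l ∈ J.erase j, q l) := by
    intro j hj
    rw [← Finset.mul_prod_erase J q hj, map_mul, map_mul, ← hr j]
    ring
  have hsum : ∑ j ∈ J, algebraMap L E (b j) * aeval s (r j * ∏ l ∈ J.erase j, q l) = 0 := by
    have h2 : ∑ j ∈ J, algebraMap L E (b j) * aeval s (r j * ∏ l ∈ J.erase j, q l) =
        (∑ j ∈ J, g j • (algebraMap L E ∘ b) j) * aeval s (∏ l ∈ J, q l) := by
      rw [Finset.sum_mul]
      refine Finset.sum_congr rfl fun j hj => ?_
      rw [← hQ j hj, Function.comp_apply, Algebra.smul_def]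
      change _ = (g j : E) * _ * _
      ring
    rw [h2, hg, zero_mul]
  have hR : ∑ j ∈ J, C (b j) * MvPolynomial.map (algebraMap F L) (r j * ∏ l ∈ J.erase j, q l) =
      0 := by
    apply hs
    rw [map_zero, ← hsum, map_sum]
    refine Finset.sum_congr rfl fun j _ => ?_
    rw [map_mul, aeval_C, aeval_map_algebraMap]
  have hcoef : ∀ m, coeff m (r i * ∏ l ∈ J.erase i, q l) = 0 := by
    intro m
    have h3 := congrArg (coeff m) hR
    rw [coeff_sum, coeff_zero] at h3
    have h4 : ∑ j ∈ J, coeff m (r j * ∏ l ∈ J.erase j, q l) • b j = 0 := by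
      rw [← h3]
      refine Finset.sum_congr rfl fun j _ => ?_
      rw [coeff_C_mul, coeff_map, Algebra.smul_def, mul_comm]
    exact linearIndependent_iff'.mp b.linearIndependent J _ h4 i hi
  have h5 : r i * ∏ l ∈ J.erase i, q l = 0 := MvPolynomial.ext _ _ fun m => by
    rw [hcoef m, coeff_zero]
  have h6 := hQ i hi
  rw [h5, map_zero] at h6
  have h7 : aeval s (∏ l ∈ J, q l) ≠ 0 := by
    rw [map_prod]
    exact Finset.prod_ne_zero_iff.mpr fun l _ => hq l
  exact Subtype.ext ((mul_eq_zero.mp h6).resolve_right h7)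

end LD

section PT

/-- `Ω` is a finitely generated purely transcendental extension of `K`. -/
def PT (K : Type u) (Ω : Type v) [Field K] [Field Ω] [Algebra K Ω] : Prop :=
  ∃ (n : ℕ) (s : Fin n → Ω), AlgebraicIndependent K s ∧ adjoin K (Set.range s) = ⊤

theorem PT.equiv {K : Type u} {Ω : Type v} [Field K] [Field Ω] [Algebra K Ω] (h : PT K Ω) :
    ∃ n, Nonempty (Ω ≃ₐ[K] Rt n K) := by
  obtain ⟨n, s, hs, htop⟩ := h
  exact ⟨n, ⟨((hs.aevalEquivField).trans ((IntermediateField.equivOfEq htop).trans
    IntermediateField.topEquiv)).symm⟩⟩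

theorem algInd_X (K : Type u) [Field K] (n : ℕ) :
    AlgebraicIndependent K (fun i : Fin n => algebraMap (MvPolynomial (Fin n) K) (Rt n K) (X i)) := by
  have h := (MvPolynomial.algebraicIndependent_X (Fin n) K).map'
    (f := IsScalarTower.toAlgHom K (MvPolynomial (Fin n) K) (Rt n K))
    (IsFractionRing.injective (MvPolynomial (Fin n) K) (Rt n K))
  exact h

theorem aeval_X_rt {K : Type u} [Field K] {n : ℕ} (p : MvPolynomial (Fin n) K) :
    aeval (fun i : Fin n => algebraMap (MvPolynomial (Fin n) K) (Rt n K) (X i)) p =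
      algebraMap (MvPolynomial (Fin n) K) (Rt n K) p := by
  have h : (aeval (fun i : Fin n => algebraMap (MvPolynomial (Fin n) K) (Rt n K) (X i)) :
      MvPolynomial (Fin n) K →ₐ[K] Rt n K) =
      IsScalarTower.toAlgHom K (MvPolynomial (Fin n) K) (Rt n K) := by
    apply MvPolynomial.algHom_ext
    intro i
    simp
  rw [h]
  rfl

theorem adjoin_X (K : Type u) [Field K] (n : ℕ) :
    adjoin K (Set.range fun i : Fin n => algebraMap (MvPolynomial (Fin n) K) (Rt n K) (X i)) =
      ⊤ := by
  rw [eq_top_iff]
  intro z _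
  rw [mem_adjoin_range_iff]
  obtain ⟨a, b, hb, rfl⟩ := IsFractionRing.div_surjective (A := MvPolynomial (Fin n) K) z
  exact ⟨a, b, by rw [aeval_X_rt, aeval_X_rt]⟩

theorem PT_rt (K : Type u) [Field K] (n : ℕ) : PT K (Rt n K) :=
  ⟨n, _, algInd_X K n, adjoin_X K n⟩

theorem PT.trans {K : Type u} {M : Type v} {Ω : Type w} [Field K] [Field M] [Field Ω] [Algebra K M]
    [Algebra M Ω] [Algebra K Ω] [IsScalarTower K M Ω] (h1 : PT K M) (h2 : PT M Ω) : PT K Ω := by
  obtain ⟨m, s, hs, hs'⟩ := h1
  obtain ⟨n, t, ht, ht'⟩ := h2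
  have h := hs.sumElim_comp ht
  refine ⟨n + m, Sum.elim t (algebraMap M Ω ∘ s) ∘ finSumFinEquiv.symm, ?_, ?_⟩
  · exact h.comp _ finSumFinEquiv.symm.injective
  · rw [eq_top_iff]
    have hr : Set.range (Sum.elim t (algebraMap M Ω ∘ s) ∘ finSumFinEquiv.symm) =
        Set.range (Sum.elim t (algebraMap M Ω ∘ s)) := by
      rw [Set.range_comp, finSumFinEquiv.symm.surjective.range_eq, Set.image_univ]
    rw [hr]
    set A := adjoin K (Set.range (Sum.elim t (algebraMap M Ω ∘ s))) with hA
    have hM : ∀ a : M, algebraMap M Ω a ∈ A := by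
      intro a
      have ha : a ∈ adjoin K (Set.range s) := by rw [hs']; trivial
      rw [mem_adjoin_range_iff] at ha
      obtain ⟨p, q, rfl⟩ := ha
      rw [map_div₀]
      have h5 : ∀ p : MvPolynomial (Fin m) K, algebraMap M Ω (aeval s p) ∈ A := by
        intro p
        rw [← MvPolynomial.aeval_algebraMap_apply]
        refine aeval_mem' A _ ?_ p
        intro i
        apply IntermediateField.subset_adjoin
        exact ⟨Sum.inr i, rfl⟩
      exact div_mem (h5 p) (h5 q)
    intro z _
    have hz : z ∈ adjoin M (Set.range t) := by rw [ht']; trivial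
    rw [mem_adjoin_range_iff] at hz
    obtain ⟨p, q, rfl⟩ := hz
    have h5 : ∀ p : MvPolynomial (Fin n) M, aeval t p ∈ A := by
      intro p
      rw [aeval_def, eval₂_eq]
      refine sum_mem fun d _ => mul_mem (hM _) (prod_mem fun i _ => pow_mem ?_ _)
      apply IntermediateField.subset_adjoin
      exact ⟨Sum.inl i, rfl⟩
    exact div_mem (h5 p) (h5 q)

end PT

section BC

variable {K : Type u} {M : Type v} [Field K] [Field M]

/-- extension of scalars for rational functions -/
noncomputable def mapRt (σ : K →+* M) (n : ℕ) : Rt n K →+* Rt n M :=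
  IsFractionRing.map (A := MvPolynomial (Fin n) K) (B := MvPolynomial (Fin n) M)
    (j := MvPolynomial.map σ) (MvPolynomial.map_injective σ σ.injective)

theorem mapRt_poly (σ : K →+* M) (n : ℕ) (p : MvPolynomial (Fin n) K) :
    mapRt σ n (algebraMap (MvPolynomial (Fin n) K) (Rt n K) p) =
      algebraMap (MvPolynomial (Fin n) M) (Rt n M) (MvPolynomial.map σ p) := by
  unfold mapRt IsFractionRing.map
  rw [IsLocalization.map_eq]

theorem mapRt_C (σ : K →+* M) (n : ℕ) (a : K) :
    mapRt σ n (algebraMap K (Rt n K) a) = algebraMap M (Rt n M) (σ a) := by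
  rw [IsScalarTower.algebraMap_apply K (MvPolynomial (Fin n) K) (Rt n K), mapRt_poly,
    MvPolynomial.algebraMap_eq, MvPolynomial.map_C, ← MvPolynomial.algebraMap_eq,
    ← IsScalarTower.algebraMap_apply]

theorem base_lin (σ : K →+* M) (n : ℕ) {κ : Type*} {f : κ → Rt n K} (hf : LinearIndependent K f) :
    LinearIndependent M (mapRt σ n ∘ f) := by
  letI : Algebra K M := σ.toAlgebra
  have hld := linDisj (F := K) (L := M) (E := Rt n M) _ (algInd_X M n)
  have hmem : ∀ z : Rt n K, mapRt σ n z ∈ adjoin K
      (Set.range fun i : Fin n => algebraMap (MvPolynomial (Fin n) M) (Rt n M) (X i)) := by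
    intro z
    obtain ⟨a, b, hb, rfl⟩ := IsFractionRing.div_surjective (A := MvPolynomial (Fin n) K) z
    rw [map_div₀, mapRt_poly, mapRt_poly]
    have h1 : ∀ p : MvPolynomial (Fin n) K,
        algebraMap (MvPolynomial (Fin n) M) (Rt n M) (MvPolynomial.map σ p) ∈ adjoin K
          (Set.range fun i : Fin n => algebraMap (MvPolynomial (Fin n) M) (Rt n M) (X i)) := by
      intro p
      have h2 : algebraMap (MvPolynomial (Fin n) M) (Rt n M) (MvPolynomial.map σ p) =
          aeval (fun i : Fin n => algebraMap (MvPolynomial (Fin n) M) (Rt n M) (X i)) p := by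
        rw [← aeval_X_rt, show σ = algebraMap K M from rfl, aeval_map_algebraMap]
      rw [h2]
      refine aeval_mem' _ _ ?_ p
      intro i
      exact IntermediateField.subset_adjoin K _ ⟨i, rfl⟩
    exact div_mem (h1 a) (h1 b)
  let g : Rt n K →ₐ[K] adjoin K
      (Set.range fun i : Fin n => algebraMap (MvPolynomial (Fin n) M) (Rt n M) (X i)) :=
    { toFun := fun z => ⟨mapRt σ n z, hmem z⟩
      map_one' := Subtype.ext (map_one _)
      map_mul' := fun a b => Subtype.ext (map_mul _ a b)
      map_zero' := Subtype.ext (map_zero _)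
      map_add' := fun a b => Subtype.ext (map_add _ a b)
      commutes' := fun a => Subtype.ext (by
        change mapRt σ n (algebraMap K (Rt n K) a) = algebraMap K (Rt n M) a
        rw [mapRt_C, IsScalarTower.algebraMap_apply K M (Rt n M)]
        rfl) }
  have hg : Function.Injective g := g.toRingHom.injective
  have h3 : LinearIndependent K (g ∘ f) := hf.map' g.toLinearMap (LinearMap.ker_eq_bot.mpr hg)
  exact hld.linearIndependent_left h3

theorem base_alg (σ : K →+* M) (n : ℕ) {κ : Type*} {f : κ → Rt n K}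
    (hf : AlgebraicIndependent K f) : AlgebraicIndependent M (mapRt σ n ∘ f) := by
  classical
  have h1 : LinearIndependent K (fun m : κ →₀ ℕ => aeval f (monomial m (1 : K))) := by
    have h2 := (basisMonomials κ K).linearIndependent.map' (aeval f : MvPolynomial κ K →ₐ[K] Rt n K).toLinearMap
      (LinearMap.ker_eq_bot.mpr hf)
    have h3 : ((aeval f : MvPolynomial κ K →ₐ[K] Rt n K).toLinearMap ∘ basisMonomials κ K) =
        fun m : κ →₀ ℕ => aeval f (monomial m (1 : K)) := by
      funext m
      simp
    rwa [h3] at h2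
  have h2 := base_lin σ n h1
  have h3 : ∀ m : κ →₀ ℕ, mapRt σ n (aeval f (monomial m (1 : K))) =
      aeval (mapRt σ n ∘ f) (monomial m (1 : M)) := by
    intro m
    rw [aeval_monomial, aeval_monomial, map_one, map_one, one_mul, one_mul, Finsupp.prod,
      Finsupp.prod, map_prod]
    refine Finset.prod_congr rfl fun i _ => ?_
    rw [map_pow]
    rfl
  unfold AlgebraicIndependent
  rw [injective_iff_map_eq_zero]
  intro p hp
  rw [linearIndependent_iff'] at h2
  have h4 : ∑ m ∈ p.support, p.coeff m • (mapRt σ n ∘ fun m : κ →₀ ℕ => aeval f (monomial m (1 : K))) m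
      = 0 := by
    rw [← hp]
    conv_rhs => rw [p.as_sum]
    rw [map_sum]
    refine Finset.sum_congr rfl fun m _ => ?_
    rw [Function.comp_apply, h3, ← map_smul, smul_monomial, smul_eq_mul, mul_one]
  have h5 := h2 _ _ h4
  ext m
  rw [coeff_zero]
  by_cases hm : m ∈ p.support
  · exact h5 m hm
  · simpa using hm

end BC

end Pool.Agent.R867.Mov
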