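import Pool.Agent.R867.Mov.Base

/-! The main argument: if all nonconstant functions can be moved by rational families of rational
self-maps, then one such family is generic. -/

set_option autoImplicit false

namespace Pool.Agent.R867.Mov

open MvPolynomial IntermediateField

universe u v

variable {k : Type v} {K : Type u} [Field k] [Field K] [Algebra k K]

/-- `σ(a)` is not in `K` for some homomorphism `σ` over `k` of `K` into a field of rational
functions over `K` -/
def Movable (k : Type v) {K : Type u} [Field k] [Field K] [Algebra k K] (a : K) : Prop :=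
  ∃ (n : ℕ) (σ : K →ₐ[k] Rt n K), σ a ∉ Set.range (algebraMap K (Rt n K))

/-- the base change of `φ` by `σ` -/
noncomputable def comb {n p : ℕ} (σ : K →ₐ[k] Rt p K) (φ : K →ₐ[k] Rt n K) :
    K →ₐ[k] Rt n (Rt p K) :=
  { toRingHom := (mapRt (σ : K →+* Rt p K) n).comp (φ : K →+* Rt n K)
    commutes' := fun c => by
      change mapRt (σ : K →+* Rt p K) n (φ (algebraMap k K c)) = _
      rw [φ.commutes, IsScalarTower.algebraMap_apply k K (Rt n K), mapRt_C]
      change algebraMap (Rt p K) (Rt n (Rt p K)) (σ (algebraMap k K c)) = _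
      rw [σ.commutes, ← IsScalarTower.algebraMap_apply] }

theorem comb_apply {n p : ℕ} (σ : K →ₐ[k] Rt p K) (φ : K →ₐ[k] Rt n K) (a : K) :
    comb σ φ a = mapRt (σ : K →+* Rt p K) n (φ a) := rfl

theorem PT_comb (K : Type u) [Field K] (n p : ℕ) : PT K (Rt n (Rt p K)) :=
  (PT_rt K p).trans (PT_rt (Rt p K) n)

/-- `r` functions can be moved independently -/
def Pr (k : Type v) (K : Type u) [Field k] [Field K] [Algebra k K] (r : ℕ) : Prop :=
  ∃ (n : ℕ) (φ : K →ₐ[k] Rt n K) (u : Fin r → K), AlgebraicIndependent K (φ ∘ u)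

theorem Pr_zero : Pr k K 0 :=
  ⟨0, IsScalarTower.toAlgHom k K (Rt 0 K), Fin.elim0, algebraicIndependent_empty_type⟩

theorem Pr_bound {N : ℕ} (hN : ∀ (r : ℕ) (u : Fin r → K), AlgebraicIndependent k u → r ≤ N)
    {r : ℕ} (h : Pr k K r) : r ≤ N := by
  obtain ⟨n, φ, u, hu⟩ := h
  apply hN r u
  have h1 : AlgebraicIndependent k (φ ∘ u) := by
    have := hu.restrictScalars (R := k) (algebraMap k K).injective
    exact this
  exact (φ.algebraicIndependent_iff φ.injective).mp h1

theorem Pr_of_PT {r : ℕ} {Ω : Type u} [Field Ω] [Algebra K Ω] [Algebra k Ω] [IsScalarTower k K Ω]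
    (hΩ : PT K Ω) (φ : K →ₐ[k] Ω) (ι : Type) [Fintype ι] (hι : Fintype.card ι = r) (u : ι → K)
    (hu : AlgebraicIndependent K (φ ∘ u)) : Pr k K r := by
  obtain ⟨n, ⟨e⟩⟩ := hΩ.equiv
  refine ⟨n, ((e.restrictScalars k).toAlgHom.comp φ), u ∘ (Fintype.equivFinOfCardEq hι).symm, ?_⟩
  have h1 := (hu.comp (Fintype.equivFinOfCardEq hι).symm (Equiv.injective _)).map'
    (f := e.toAlgHom) e.injective
  exact h1

theorem core {N : ℕ} (hN : ∀ (r : ℕ) (u : Fin r → K), AlgebraicIndependent k u → r ≤ N)
    (hmov : ∀ a : K, a ∉ Set.range (algebraMap k K) → Movable k a) :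
    ∃ (n : ℕ) (φ : K →ₐ[k] Rt n K), ∀ (m : ℕ) (w : Fin m → K), LinearIndependent k w →
      LinearIndependent K (φ ∘ w) := by
  classical
  obtain ⟨r, hr, hmax⟩ : ∃ r, Pr k K r ∧ ∀ r', Pr k K r' → r' ≤ r :=
    ⟨Nat.findGreatest (Pr k K) N, Nat.findGreatest_spec (Nat.zero_le N) Pr_zero,
      fun r' hr' => Nat.le_findGreatest (Pr_bound hN hr') hr'⟩
  obtain ⟨n, φ, u, hu⟩ := hr
  refine ⟨n, φ, ?_⟩
  by_contra hcon
  push Not at hcon
  -- a minimal relation
  have hex : ∃ m, ∃ w : Fin m → K, LinearIndependent k w ∧ ¬ LinearIndependent K (φ ∘ w) := hcon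
  obtain ⟨m₀, ⟨w, hw, hwd⟩, hmin⟩ : ∃ m₀, (∃ w : Fin m₀ → K, LinearIndependent k w ∧
      ¬ LinearIndependent K (φ ∘ w)) ∧ ∀ m' < m₀, ∀ w' : Fin m' → K, LinearIndependent k w' →
      LinearIndependent K (φ ∘ w') := by
    refine ⟨Nat.find hex, Nat.find_spec hex, ?_⟩
    intro m' hm' w' hw'
    by_contra h
    exact Nat.find_min hex hm' ⟨w', hw', h⟩
  obtain ⟨m, rfl⟩ : ∃ m, m₀ = m + 1 := by
    refine Nat.exists_eq_succ_of_ne_zero fun h0 => ?_
    apply hwd
    subst h0
    exact linearIndependent_empty_type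
  rw [Fintype.not_linearIndependent_iff] at hwd
  obtain ⟨g, hg, j₀, hj₀⟩ := hwd
  obtain ⟨a, ha⟩ : ∃ a : Fin (m + 1) → K, a = fun i => g i / g j₀ := ⟨_, rfl⟩
  have haj : a j₀ = 1 := by rw [ha]; exact div_self hj₀
  have har : ∑ i, a i • φ (w i) = 0 := by
    have h1 : ∑ i, a i • φ (w i) = (g j₀)⁻¹ • ∑ i, g i • (φ ∘ w) i := by
      rw [Finset.smul_sum]
      refine Finset.sum_congr rfl fun i _ => ?_
      rw [smul_smul, show a i = (g j₀)⁻¹ * g i by rw [ha]; exact div_eq_inv_mul _ _]
      rfl
    rw [h1, hg, smul_zero]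
  have hsub : LinearIndependent K (φ ∘ w ∘ j₀.succAbove) :=
    hmin m (Nat.lt_succ_self m) _ (hw.comp _ Fin.succAbove_right_injective)
  -- the coefficients are not movable
  have key : ∀ (p : ℕ) (σ : K →ₐ[k] Rt p K) (i : Fin (m + 1)),
      σ (a i) ∈ Set.range (algebraMap K (Rt p K)) := by
    intro p σ i
    obtain ⟨ψ, hψ⟩ : ∃ ψ, ψ = comb σ φ := ⟨_, rfl⟩
    have hPT := PT_comb K n p
    -- `ψ u` is independent over `Rt p K`
    have hu1 : AlgebraicIndependent (Rt p K) (ψ ∘ u) := by
      have := base_alg (σ : K →+* Rt p K) n hu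
      rw [hψ]
      exact this
    have hu2 : AlgebraicIndependent K (ψ ∘ u) :=
      hu1.restrictScalars (R := K) (algebraMap K (Rt p K)).injective
    -- everything is algebraic over `K (ψ u)`
    obtain ⟨F₀, hF₀⟩ : ∃ F₀ : IntermediateField K (Rt n (Rt p K)),
      F₀ = adjoin K (Set.range (ψ ∘ u)) := ⟨_, rfl⟩
    have halg : ∀ b : K, IsAlgebraic F₀ (ψ b) := by
      intro b
      rw [hF₀, isAlgebraic_adjoin_iff]
      by_contra htr
      have h1 := (hu2.option_iff_transcendental (ψ b)).mpr htr
      have h2 : Pr k K (r + 1) := by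
        refine Pr_of_PT hPT ψ (Option (Fin r)) (by simp) (fun o => o.elim b u) ?_
        have h3 : (ψ ∘ fun o : Option (Fin r) => o.elim b u) =
            fun o => o.elim (ψ b) (ψ ∘ u) := by
          funext o
          cases o <;> rfl
        rw [h3]
        exact h1
      have := hmax _ h2
      omega
    -- the parameters of `σ` are independent over `F₀`
    obtain ⟨s, hs⟩ : ∃ s : Fin p → Rt p K, s = fun i : Fin p =>
      algebraMap (MvPolynomial (Fin p) K) (Rt p K) (X i) := ⟨_, rfl⟩
    have hs1 : AlgebraicIndependent K s := by rw [hs]; exact algInd_X K p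
    have hs2 : AlgebraicIndependent F₀ (algebraMap (Rt p K) (Rt n (Rt p K)) ∘ s) := by
      have h1 := hs1.sumElim_comp hu1
      have h2 : AlgebraicIndependent K
          (Sum.elim (algebraMap (Rt p K) (Rt n (Rt p K)) ∘ s) (ψ ∘ u)) := by
        have h3 := h1.comp _ (Equiv.sumComm (Fin p) (Fin r)).injective
        have h4 : (Sum.elim (algebraMap (Rt p K) (Rt n (Rt p K)) ∘ s) (ψ ∘ u)) =
            Sum.elim (ψ ∘ u) (algebraMap (Rt p K) (Rt n (Rt p K)) ∘ s) ∘
              (Equiv.sumComm (Fin p) (Fin r)) := by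
          funext o
          cases o <;> rfl
        rw [h4]
        exact h3
      rw [hF₀, algebraicIndependent_adjoin_iff]
      exact (AlgebraicIndependent.sumElim_iff.mp h2).2
    have hs3 := hs2.algebraicClosure
    have htow : IsScalarTower K (algebraicClosure F₀ (Rt n (Rt p K))) (Rt n (Rt p K)) :=
      IsScalarTower.of_algebraMap_eq fun _ => rfl
    have hld := linDisj (F := K) _ hs3
    obtain ⟨b, hb⟩ : ∃ b : Fin (m + 1) → algebraicClosure F₀ (Rt n (Rt p K)),
      b = fun i => ⟨ψ (w i), mem_algebraicClosure_iff.mpr (halg (w i))⟩ := ⟨_, rfl⟩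
    -- the relation after applying `σ`
    have hrel : ∑ i, algebraMap (Rt p K) (Rt n (Rt p K)) (σ (a i)) * ψ (w i) = 0 := by
      have h1 := congrArg (mapRt (σ : K →+* Rt p K) n) har
      rw [map_sum, map_zero] at h1
      rw [← h1]
      refine Finset.sum_congr rfl fun i _ => ?_
      rw [Algebra.smul_def, map_mul, mapRt_C, hψ]
      rfl
    have hmemA : ∀ z : Rt p K, algebraMap (Rt p K) (Rt n (Rt p K)) z ∈
        adjoin K (Set.range (algebraMap (Rt p K) (Rt n (Rt p K)) ∘ s)) := by
      intro z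
      have hz : z ∈ adjoin K (Set.range s) := by
        rw [hs, adjoin_X]
        trivial
      rw [mem_adjoin_range_iff] at hz
      obtain ⟨P, Q, rfl⟩ := hz
      rw [map_div₀]
      have h5 : ∀ P : MvPolynomial (Fin p) K, algebraMap (Rt p K) (Rt n (Rt p K)) (aeval s P) ∈
          adjoin K (Set.range (algebraMap (Rt p K) (Rt n (Rt p K)) ∘ s)) := by
        intro P
        rw [← MvPolynomial.aeval_algebraMap_apply]
        refine aeval_mem' _ _ (fun i => ?_) P
        exact IntermediateField.subset_adjoin K _ (Set.mem_range_self i)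
      exact div_mem (h5 P) (h5 Q)
    have hdep : ¬ LinearIndependent K b := by
      intro hlin
      have h1 := hld.linearIndependent_right' hlin
      rw [Fintype.linearIndependent_iff] at h1
      have h2 := h1 (fun i => (⟨_, hmemA (σ (a i))⟩ :
          adjoin K (Set.range (algebraMap (Rt p K) (Rt n (Rt p K)) ∘ s)))) (by
        rw [← hrel]
        refine Finset.sum_congr rfl fun i _ => ?_
        rw [Algebra.smul_def, hb]
        rfl) j₀
      have h3 := congrArg Subtype.val h2
      change algebraMap (Rt p K) (Rt n (Rt p K)) (σ (a j₀)) = 0 at h3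
      rw [haj, map_one, map_one] at h3
      exact one_ne_zero h3
    rw [Fintype.not_linearIndependent_iff] at hdep
    obtain ⟨c, hc, i₁, hi₁⟩ := hdep
    have hc' : ∑ i, algebraMap K (Rt n (Rt p K)) (c i) * ψ (w i) = 0 := by
      have h1 := congrArg Subtype.val hc
      rw [IntermediateField.coe_sum] at h1
      rw [IntermediateField.coe_zero] at h1
      rw [← h1]
      refine Finset.sum_congr rfl fun i _ => ?_
      rw [hb, Algebra.smul_def]
      rfl
    -- subtract
    have hsub2 : LinearIndependent (Rt p K) (ψ ∘ w ∘ j₀.succAbove) := by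
      have := base_lin (σ : K →+* Rt p K) n hsub
      rw [hψ]
      exact this
    rw [Fintype.linearIndependent_iff] at hsub2
    have h6 := hsub2 (fun i => algebraMap K (Rt p K) (c j₀) * σ (a (j₀.succAbove i)) -
        algebraMap K (Rt p K) (c (j₀.succAbove i))) (by
      have h7 : ∑ i, (algebraMap (Rt p K) (Rt n (Rt p K)) (algebraMap K (Rt p K) (c j₀) * σ (a i) -
          algebraMap K (Rt p K) (c i))) * ψ (w i) = 0 := by
        have h8 : ∑ i, (algebraMap (Rt p K) (Rt n (Rt p K))
            (algebraMap K (Rt p K) (c j₀) * σ (a i) -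
            algebraMap K (Rt p K) (c i))) * ψ (w i) =
            algebraMap K (Rt n (Rt p K)) (c j₀) *
              (∑ i, algebraMap (Rt p K) (Rt n (Rt p K)) (σ (a i)) * ψ (w i)) -
            ∑ i, algebraMap K (Rt n (Rt p K)) (c i) * ψ (w i) := by
          rw [Finset.mul_sum, ← Finset.sum_sub_distrib]
          refine Finset.sum_congr rfl fun i _ => ?_
          rw [map_sub, map_mul, ← IsScalarTower.algebraMap_apply, ← IsScalarTower.algebraMap_apply]
          ring
        rw [h8, hrel, hc', mul_zero, sub_zero]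
      rw [Fin.sum_univ_succAbove _ j₀, haj, map_one, mul_one, sub_self, map_zero, zero_mul,
        zero_add] at h7
      rw [← h7]
      refine Finset.sum_congr rfl fun i _ => ?_
      rw [Algebra.smul_def]
      rfl)
    have hcj : c j₀ ≠ 0 := by
      intro h0
      apply hi₁
      rcases Fin.eq_self_or_eq_succAbove j₀ i₁ with h9 | ⟨i₂, h9⟩
      · rw [h9, h0]
      · have h10 := h6 i₂
        rw [h0, map_zero, zero_mul, zero_sub, neg_eq_zero] at h10
        rw [h9]
        exact (map_eq_zero _).mp h10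
    rcases Fin.eq_self_or_eq_succAbove j₀ i with h9 | ⟨i₂, h9⟩
    · exact ⟨1, by rw [h9, haj, map_one, map_one]⟩
    · refine ⟨c i / c j₀, ?_⟩
      have h10 := h6 i₂
      rw [← h9] at h10
      rw [map_div₀, div_eq_iff (by simpa using hcj)]
      linear_combination -h10
  have hconst : ∀ i, ∃ c : k, algebraMap k K c = a i := by
    intro i
    by_contra h
    obtain ⟨p, σ, hσ⟩ := hmov (a i) h
    exact hσ (key p σ i)
  choose c hc using hconst
  have h1 : ∑ i, c i • w i = 0 := by
    apply φ.injective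
    rw [map_sum, map_zero, ← har]
    refine Finset.sum_congr rfl fun i _ => ?_
    rw [Algebra.smul_def, ← hc i, algebraMap_smul, Algebra.smul_def]
    change φ (algebraMap k K (c i) * w i) = _
    rw [map_mul, φ.commutes]
  have h2 := Fintype.linearIndependent_iff.mp hw c h1 j₀
  have h3 := hc j₀
  rw [h2, map_zero, haj] at h3
  exact zero_ne_one h3

end Pool.Agent.R867.Mov
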