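import Pool.Agent.R867.Mov.Alg

/-! Homomorphisms from function fields of cyclic covers. -/

set_option autoImplicit false

namespace Pool.Agent.R867.Mov

open MvPolynomial

universe u v w

section Cyc

variable {k : Type u} [Field k] {ι : Type w} {f : MvPolynomial ι k}

theorem irr_cyc (hf : Irreducible f) {r : ℕ} (hr : 1 ≤ r) :
    Irreducible (Polynomial.X ^ r - Polynomial.C f) := by
  have hp : Prime f := hf.prime
  have hP : (Ideal.span {f}).IsPrime := (Ideal.span_singleton_prime hp.ne_zero).mpr hp
  have hmon : (Polynomial.X ^ r - Polynomial.C f : Polynomial (MvPolynomial ι k)).Monic :=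
    Polynomial.monic_X_pow_sub_C f (by omega)
  have hdeg : (Polynomial.X ^ r - Polynomial.C f : Polynomial (MvPolynomial ι k)).degree = r :=
    Polynomial.degree_X_pow_sub_C (by omega) f
  refine Polynomial.irreducible_of_eisenstein_criterion hP ?_ ?_ ?_ ?_ hmon.isPrimitive
  · rw [hmon.leadingCoeff]
    exact fun h => hP.ne_top ((Ideal.eq_top_iff_one _).mpr h)
  · intro n hn
    rw [hdeg] at hn
    have hn' : n < r := by exact_mod_cast hn
    rw [Polynomial.coeff_sub, Polynomial.coeff_X_pow, if_neg (by omega), zero_sub,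
      Polynomial.coeff_C]
    split_ifs
    · exact neg_mem (Ideal.mem_span_singleton_self f)
    · rw [neg_zero]; exact zero_mem _
  · rw [hdeg]
    exact_mod_cast hr
  · rw [Polynomial.coeff_sub, Polynomial.coeff_X_pow, if_neg (by omega), zero_sub,
      Polynomial.coeff_C_zero, Ideal.span_singleton_pow, Ideal.mem_span_singleton, dvd_neg]
    rintro ⟨g, hg⟩
    have h1 : f * (f * g) = f * 1 := by
      rw [mul_one, ← mul_assoc, ← sq]
      exact hg.symm
    exact hp.not_unit (IsUnit.of_mul_eq_one g (mul_left_cancel₀ hp.ne_zero h1))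

/-- the evaluation at `(x, w)` -/
noncomputable def ev2 {K : Type v} [Field K] [Algebra k K] (x : ι → K) (w : K) :
    Polynomial (MvPolynomial ι k) →ₐ[k] K :=
  { toRingHom := Polynomial.eval₂RingHom (aeval x : MvPolynomial ι k →ₐ[k] K).toRingHom w
    commutes' := fun a => by
      change Polynomial.eval₂ (aeval x : MvPolynomial ι k →ₐ[k] K).toRingHom w
        (Polynomial.C (C a)) = _
      rw [Polynomial.eval₂_C]
      exact aeval_C x a }

theorem ev2_apply {K : Type v} [Field K] [Algebra k K] (x : ι → K) (w : K)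
    (P : Polynomial (MvPolynomial ι k)) :
    ev2 x w P = Polynomial.eval₂ (aeval x : MvPolynomial ι k →ₐ[k] K).toRingHom w P := rfl

theorem ev2_C {K : Type v} [Field K] [Algebra k K] (x : ι → K) (w : K) (p : MvPolynomial ι k) :
    ev2 x w (Polynomial.C p) = aeval x p := by
  rw [ev2_apply, Polynomial.eval₂_C]
  rfl

theorem ev2_X {K : Type v} [Field K] [Algebra k K] (x : ι → K) (w : K) :
    ev2 (k := k) x w Polynomial.X = w := by
  rw [ev2_apply, Polynomial.eval₂_X]

/-- a polynomial of low degree which vanishes at a root of an irreducible polynomial is zero -/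
theorem low_degree {R : Type u} [CommRing R] [IsDomain R] [IsIntegrallyClosed R] {K : Type v}
    [Field K] (ev : R →+* K) (hev : Function.Injective ev) {g : Polynomial R} (hg : g.Monic)
    (hirr : Irreducible g) {w : K} (hw : Polynomial.eval₂ ev w g = 0) {P : Polynomial R}
    (hP : Polynomial.eval₂ ev w P = 0) : g ∣ P := by
  let _ : Algebra R K := ev.toAlgebra
  let _ : Algebra (FractionRing R) K := (IsFractionRing.lift hev : FractionRing R →+* K).toAlgebra
  have hlift : ∀ a, algebraMap (FractionRing R) K (algebraMap R (FractionRing R) a) = ev a :=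
    fun a => IsFractionRing.lift_algebraMap hev a
  have hirr' := (hg.irreducible_iff_irreducible_map_fraction_map (K := FractionRing R)).mp hirr
  have hae : ∀ Q : Polynomial R, Polynomial.aeval w (Q.map (algebraMap R (FractionRing R))) =
      Polynomial.eval₂ ev w Q := by
    intro Q
    rw [Polynomial.aeval_def, Polynomial.eval₂_map]
    congr 1
    exact RingHom.ext hlift
  have hmin := minpoly.eq_of_irreducible_of_monic hirr' (x := w) (by rw [hae, hw])
    (hg.map _)
  have h1 : g.map (algebraMap R (FractionRing R)) ∣ P.map (algebraMap R (FractionRing R)) := by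
    rw [hmin]
    exact minpoly.dvd _ _ (by rw [hae, hP])
  exact (Polynomial.map_dvd_map _ (IsFractionRing.injective R (FractionRing R)) hg).mp h1

/-- The relations of the generic point of the cyclic cover `w ^ r = f`. -/
theorem ker_cyc {K : Type v} [Field K] [Algebra k K] (hf : Irreducible f) {r : ℕ} (hr : 1 ≤ r)
    {x : ι → K} (hx : AlgebraicIndependent k x) {w : K} (hw : w ^ r = aeval x f)
    (P : Polynomial (MvPolynomial ι k)) :
    ev2 x w P = 0 ↔ (Polynomial.X ^ r - Polynomial.C f) ∣ P := by
  have hmon : (Polynomial.X ^ r - Polynomial.C f : Polynomial (MvPolynomial ι k)).Monic :=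
    Polynomial.monic_X_pow_sub_C f (by omega)
  have hroot : ev2 x w (Polynomial.X ^ r - Polynomial.C f) = 0 := by
    rw [map_sub, map_pow, ev2_X, ev2_C, hw, sub_self]
  constructor
  · intro hP
    exact low_degree (aeval x : MvPolynomial ι k →ₐ[k] K).toRingHom hx hmon (irr_cyc hf hr)
      (w := w) hroot hP
  · rintro ⟨Q, rfl⟩
    rw [map_mul, hroot, zero_mul]

/-- Homomorphisms from the function field of the cyclic cover `w ^ r = f`. -/
theorem exists_hom {K : Type v} [Field K] [Algebra k K] (hf : Irreducible f) {r : ℕ} (hr : 1 ≤ r)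
    {x : ι → K} (hx : AlgebraicIndependent k x) {w : K} (hw : w ^ r = aeval x f)
    (htop : IntermediateField.adjoin k (insert w (Set.range x)) = ⊤) {Ω : Type*} [Field Ω]
    [Algebra k Ω] {x' : ι → Ω} (hx' : AlgebraicIndependent k x') {w' : Ω}
    (hw' : w' ^ r = aeval x' f) : ∃ φ : K →ₐ[k] Ω, (∀ i, φ (x i) = x' i) ∧ φ w = w' := by
  obtain ⟨φ, hφ⟩ := embedG (ev2 x w) (ev2 x' w') (fun p => by
    rw [ker_cyc hf hr hx hw, ker_cyc hf hr hx' hw']) (by
    intro z
    have hz : z ∈ IntermediateField.adjoin k (insert w (Set.range x)) := by rw [htop]; trivial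
    obtain ⟨a, ha, b, hb, hab⟩ := (IntermediateField.mem_adjoin_iff_div ..).mp hz
    have hmem : ∀ c ∈ Algebra.adjoin k (insert w (Set.range x)),
        ∃ p : Polynomial (MvPolynomial ι k), ev2 x w p = c := by
      intro c hc
      have hle : Algebra.adjoin k (insert w (Set.range x)) ≤ (ev2 x w).range := by
        rw [Algebra.adjoin_le_iff]
        rintro y (rfl | ⟨i, rfl⟩)
        · exact ⟨_, ev2_X x y⟩
        · exact ⟨Polynomial.C (X i), by
            change ev2 x w _ = _
            rw [ev2_C, aeval_X]⟩
      exact hle hc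
    obtain ⟨p, hp⟩ := hmem a ha
    obtain ⟨q, hq⟩ := hmem b hb
    by_cases hb0 : b = 0
    · refine ⟨0, 1, by simp, ?_⟩
      rw [hab, hb0, div_zero, zero_mul, map_zero]
    · refine ⟨p, q, by rwa [hq], ?_⟩
      rw [hp, hq, hab, div_mul_cancel₀ _ hb0])
  refine ⟨φ, fun i => ?_, ?_⟩
  · have := hφ (Polynomial.C (X i))
    rwa [ev2_C, ev2_C, aeval_X, aeval_X] at this
  · have := hφ Polynomial.X
    rwa [ev2_X, ev2_X] at this

end Cyc

end Pool.Agent.R867.Mov
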