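import Pool.Agent.R867.Mov.Spec3

/-! Unirational varieties are those all of whose nonconstant functions are movable. -/

set_option autoImplicit false

namespace Pool.Agent.R867.Mov

open MvPolynomial IntermediateField

universe u v w

variable {k K : Type u} [Field k] [Field K] [Algebra k K]

theorem fin_gen (hfg : ∃ S : Finset K, adjoin k (S : Set K) = ⊤) :
    ∃ (N : ℕ) (x : Fin N → K), adjoin k (Set.range x) = ⊤ := by
  classical
  obtain ⟨S, hS⟩ := hfg
  refine ⟨S.card, fun i => (S.equivFin.symm i : K), ?_⟩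
  rw [← hS]
  congr 1
  ext z
  constructor
  · rintro ⟨i, rfl⟩
    exact (S.equivFin.symm i).2
  · intro hz
    exact ⟨S.equivFin ⟨z, hz⟩, by simp⟩

theorem bound {N : ℕ} {x : Fin N → K} (hx : adjoin k (Set.range x) = ⊤) (r : ℕ) (u : Fin r → K)
    (hu : AlgebraicIndependent k u) : r ≤ N := by
  have h1 : Algebra.IsAlgebraic (Algebra.adjoin k (Set.range x)) K := by
    refine isAlg_of_adjoin _ x hx fun i => ?_
    exact isAlgebraic_algebraMap (⟨x i, Algebra.subset_adjoin ⟨i, rfl⟩⟩ :
      Algebra.adjoin k (Set.range x))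
  have h2 := Algebra.IsAlgebraic.trdeg_le_cardinalMk k (Set.range x)
  have h3 := hu.lift_cardinalMk_le_trdeg
  have h4 : Cardinal.lift.{u} (Cardinal.mk (Set.range x)) ≤ N := by
    have := Cardinal.mk_range_le_lift (f := x)
    simpa using this
  have h5 : Algebra.trdeg k K ≤ N := by
    refine h2.trans ?_
    have := Cardinal.mk_range_le_lift (f := x)
    simpa using this
  have h6 : (r : Cardinal.{u}) ≤ N := by
    refine le_trans ?_ h5
    simpa using h3
  exact_mod_cast h6

theorem unirational_of_dense {N : ℕ} {x : Fin N → K} (hx : adjoin k (Set.range x) = ⊤)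
    (hd : DensePts k x) (hmov : ∀ a : K, a ∉ Set.range (algebraMap k K) → Movable k a) :
    ∃ n, Nonempty (K →ₐ[k] Rt n k) := by
  obtain ⟨n, φ, hφ⟩ := core (bound hx) hmov
  exact ⟨n, specialize hx hd φ fun ι u hu => indep_of_lin hφ hu⟩

/-- a rational function with coefficients in `k` which is in `K` is constant -/
theorem mapRt_mem (σ : k →+* K) (n : ℕ) (z : Rt n k) (a : K)
    (h : mapRt σ n z = algebraMap K (Rt n K) a) : z ∈ Set.range (algebraMap k (Rt n k)) := by
  letI : Algebra k K := σ.toAlgebra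
  by_contra hz
  have h1 : LinearIndependent k ![(1 : Rt n k), z] := by
    rw [LinearIndependent.pair_iff]
    intro s t hst
    by_cases ht : t = 0
    · rw [ht, zero_smul, add_zero, Algebra.smul_def, mul_one, map_eq_zero] at hst
      exact ⟨hst, ht⟩
    · exfalso
      apply hz
      refine ⟨-s / t, ?_⟩
      rw [Algebra.smul_def, Algebra.smul_def, mul_one] at hst
      have ht' : algebraMap k (Rt n k) t ≠ 0 := by rwa [Ne, map_eq_zero]
      rw [map_div₀, map_neg, div_eq_iff ht']
      linear_combination -hst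
  have h2 := base_lin σ n h1
  have h3 : (mapRt σ n ∘ ![(1 : Rt n k), z]) = ![(1 : Rt n K), algebraMap K (Rt n K) a] := by
    funext i
    fin_cases i
    · exact map_one _
    · exact h
  rw [h3, LinearIndependent.pair_iff] at h2
  have h4 := h2 a (-1) (by
    rw [Algebra.smul_def, mul_one, neg_smul, one_smul, add_neg_cancel])
  exact one_ne_zero (neg_eq_zero.mp h4.2)

theorem movable_of_unirational {n : ℕ} (ψ : K →ₐ[k] Rt n k) {a : K}
    (ha : a ∉ Set.range (algebraMap k K)) : Movable k a := by
  let σ : K →ₐ[k] Rt n K :=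
    { toRingHom := (mapRt (algebraMap k K) n).comp (ψ : K →+* Rt n k)
      commutes' := fun c => by
        change mapRt (algebraMap k K) n (ψ (algebraMap k K c)) = _
        rw [ψ.commutes, mapRt_C, ← IsScalarTower.algebraMap_apply] }
  refine ⟨n, σ, ?_⟩
  rintro ⟨b, hb⟩
  have h1 : mapRt (algebraMap k K) n (ψ a) = algebraMap K (Rt n K) b := hb.symm
  obtain ⟨c, hc⟩ := mapRt_mem _ n _ _ h1
  apply ha
  refine ⟨c, ψ.toRingHom.injective ?_⟩
  change ψ (algebraMap k K c) = ψ a
  rw [ψ.commutes, hc]

/-- The main theorem. -/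
theorem main [IsAlgClosed k] (hfg : ∃ S : Finset K, adjoin k (S : Set K) = ⊤) :
    (∃ n, Nonempty (K →ₐ[k] Rt n k)) ↔
      ∀ a : K, a ∉ Set.range (algebraMap k K) → Movable k a := by
  constructor
  · rintro ⟨n, ⟨ψ⟩⟩ a ha
    exact movable_of_unirational ψ ha
  · intro hmov
    obtain ⟨N, x, hx⟩ := fin_gen hfg
    exact unirational_of_dense hx (densePts_of_isAlgClosed x) hmov

end Pool.Agent.R867.Mov
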