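import Pool.Agent.R867.Mov.Tay

/-! The new coordinate is not algebraic over fields generated by coordinates. -/

set_option autoImplicit false

namespace Pool.Agent.R867.Mov

open MvPolynomial

universe u v w

section NA

variable {k : Type u} [Field k] {ι : Type w}

theorem degreeOf_pderiv (j : ι) (f : MvPolynomial ι k) :
    degreeOf j (pderiv j f) ≤ degreeOf j f - 1 := by
  classical
  rw [degreeOf_le_iff]
  intro m hm
  rw [mem_support_iff, coeff_pderiv] at hm
  have h1 : m + Finsupp.single j 1 ∈ f.support := by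
    rw [mem_support_iff]
    exact left_ne_zero_of_mul hm
  have h2 := monomial_le_degreeOf j h1
  rw [Finsupp.add_apply, Finsupp.single_eq_same] at h2
  omega

theorem pderiv_ne_zero [CharZero k] {j : ι} {f : MvPolynomial ι k} (h : 1 ≤ degreeOf j f) :
    pderiv j f ≠ 0 := by
  classical
  intro h0
  have h1 : degreeOf j f ≤ 0 := by
    rw [degreeOf_le_iff]
    intro m hm
    by_contra hmj
    have h2 := congrArg (coeff (m - Finsupp.single j 1)) h0
    have h3 : m - Finsupp.single j 1 + Finsupp.single j 1 = m := by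
      ext i
      by_cases hi : i = j
      · subst hi
        simp
        omega
      · simp [Finsupp.single_apply, Ne.symm hi]
    rw [coeff_pderiv, coeff_zero, h3] at h2
    rw [mem_support_iff] at hm
    have h4 := (mul_eq_zero.mp h2).resolve_left hm
    norm_cast at h4
  omega

theorem degreeOf_le_of_dvd {f g : MvPolynomial ι k} (h : f ∣ g) (hg : g ≠ 0) (j : ι) :
    degreeOf j f ≤ degreeOf j g := by
  obtain ⟨c, rfl⟩ := h
  rw [degreeOf_mul_eq (left_ne_zero_of_mul hg) (right_ne_zero_of_mul hg)]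
  exact Nat.le_add_right _ _

theorem not_dvd_pderiv [CharZero k] {j : ι} {f : MvPolynomial ι k} (h : 1 ≤ degreeOf j f) :
    ¬ f ∣ pderiv j f := by
  intro h1
  have h2 := degreeOf_le_of_dvd h1 (pderiv_ne_zero h) j
  have h3 := degreeOf_pderiv j f
  omega

theorem pderiv_eq_zero_of_degreeOf {j : ι} {f : MvPolynomial ι k} (h : degreeOf j f = 0) :
    pderiv j f = 0 := by
  classical
  ext m
  rw [coeff_pderiv, coeff_zero]
  by_cases hm : coeff (m + Finsupp.single j 1) f = 0
  · rw [hm, zero_mul]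
  · exfalso
    have h1 := monomial_le_degreeOf j (mem_support_iff.mpr hm)
    rw [Finsupp.add_apply, Finsupp.single_eq_same, h] at h1
    omega

theorem degreeOf_rename_zero {S : Set ι} (r : MvPolynomial S k) {i : ι} (hi : i ∉ S) :
    degreeOf i (rename (Subtype.val : S → ι) r) = 0 := by
  classical
  apply Nat.le_zero.mp
  rw [degreeOf_le_iff]
  intro m hm
  obtain ⟨u, rfl, -⟩ := coeff_rename_ne_zero _ _ _ (mem_support_iff.mp hm)
  rw [Finsupp.mapDomain_notin_range]
  rintro ⟨a, rfl⟩
  exact hi a.2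

theorem exists_frac_of_mem {K : Type v} [Field K] [Algebra k K] {x : ι → K} {S : Set ι} {z : K}
    (hz : z ∈ IntermediateField.adjoin k (x '' S)) : ∃ α β : MvPolynomial ι k,
      (∀ i, i ∉ S → degreeOf i α = 0) ∧ (∀ i, i ∉ S → degreeOf i β = 0) ∧ aeval x β ≠ 0 ∧
      z * aeval x β = aeval x α := by
  have h1 : x '' S = Set.range (fun i : S => x i) := by
    ext; simp
  rw [h1, IntermediateField.mem_adjoin_range_iff] at hz
  obtain ⟨r, s, hrs⟩ := hz
  by_cases hs : aeval (fun i : S => x i) s = 0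
  · rw [hs, div_zero] at hrs
    exact ⟨0, 1, by simp, by simp, by simp, by simp [hrs]⟩
  · refine ⟨rename Subtype.val r, rename Subtype.val s, fun i hi => degreeOf_rename_zero r hi,
      fun i hi => degreeOf_rename_zero s hi, ?_, ?_⟩
    · rw [aeval_rename]
      exact hs
    · rw [aeval_rename, aeval_rename, hrs]
      exact div_mul_cancel₀ _ hs

variable {K : Type v} [Field K] [Algebra k K] {x : ι → K} {f : MvPolynomial ι k}

theorem mem_adjoin_range (p : MvPolynomial ι k) :
    aeval x p ∈ IntermediateField.adjoin k (Set.range x) :=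
  aeval_mem' (IntermediateField.adjoin k (Set.range x)) x
    (fun i => IntermediateField.subset_adjoin k (Set.range x) (Set.mem_range_self i)) p

/-- the polynomial identity which follows from algebraicity -/
theorem identity (hx : AlgebraicIndependent k x) {j : ι} {S : Set ι} {N D : MvPolynomial ι k}
    (hD : D ≠ 0) (h : x j + aeval x N / aeval x D ∈ cl k (x '' S)) :
    ∃ α β : MvPolynomial ι k,
      (∀ i, i ∉ S → degreeOf i α = 0) ∧ (∀ i, i ∉ S → degreeOf i β = 0) ∧ β ≠ 0 ∧
      (β * X j - α) * D = - (β * N) := by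
  have hD' : aeval x D ≠ 0 := fun h0 => hD (hx (h0.trans (map_zero _).symm))
  have hxj : x j ∈ IntermediateField.adjoin k (Set.range x) :=
    IntermediateField.subset_adjoin k _ ⟨j, rfl⟩
  have h1 := mem_adjoin_of_cl hx S (add_mem hxj
    (div_mem (mem_adjoin_range N) (mem_adjoin_range D))) h
  obtain ⟨α, β, hα, hβ, hβ0, hz⟩ := exists_frac_of_mem h1
  refine ⟨α, β, hα, hβ, fun h0 => hβ0 (by rw [h0, map_zero]), ?_⟩
  apply hx
  rw [map_mul, map_sub, map_mul, aeval_X, map_neg, map_mul, ← hz]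
  field_simp
  ring

theorem dvd_of_unit_mul {a : k} (ha : a ≠ 0) {g : MvPolynomial ι k} (h : f ∣ C a * g) : f ∣ g := by
  have h1 := h.mul_left (C a⁻¹)
  rwa [← mul_assoc, ← C_mul, inv_mul_cancel₀ ha, C_1, one_mul] at h1

theorem notMem_cl_A (hx : AlgebraicIndependent k x) (hf : Irreducible f) {j i₀ : ι} {S : Set ι}
    (hj : j ∈ S) (hi₀ : i₀ ∉ S) (h1 : 1 ≤ degreeOf i₀ f) {C' D q : MvPolynomial ι k} {e : k}
    {m : ℕ} (hC : f ∣ C' - C e * q ^ m) (hD : f ∣ D - q ^ (m + 1)) (he : e ≠ 0) (hq : ¬ f ∣ q) :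
    x j + aeval x (f * C') / aeval x D ∉ cl k (x '' S) := by
  classical
  have hp : Prime f := hf.prime
  have hDf : ¬ f ∣ D := by
    intro h
    have h2 := dvd_sub h hD
    rw [sub_sub_cancel] at h2
    exact hq (hp.dvd_of_dvd_pow h2)
  have hCf : ¬ f ∣ C' := by
    intro h
    have h2 := dvd_sub h hC
    rw [sub_sub_cancel] at h2
    exact hq (hp.dvd_of_dvd_pow (dvd_of_unit_mul he h2))
  intro hcl
  have hD0 : D ≠ 0 := by
    rintro rfl
    exact hDf (dvd_zero f)
  obtain ⟨α, β, hα, hβ, hβ0, hid⟩ := identity hx hD0 hcl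
  have h2 : f ∣ (β * X j - α) * D := by
    rw [hid]
    exact ⟨-(β * C'), by ring⟩
  have h3 : f ∣ β * X j - α := (hp.dvd_or_dvd h2).resolve_right hDf
  have h4 : β * X j - α = 0 := by
    by_contra h5
    have h6 := degreeOf_le_of_dvd h3 h5 i₀
    have h7 : degreeOf i₀ (β * X j - α) ≤ 0 := by
      refine (degreeOf_sub_le _ _ _).trans ?_
      rw [hα i₀ hi₀, max_le_iff]
      refine ⟨(degreeOf_mul_le _ _ _).trans ?_, le_rfl⟩
      have hne : i₀ ≠ j := by
        rintro rfl
        exact hi₀ hj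
      rw [hβ i₀ hi₀, degreeOf_X, if_neg hne]
    omega
  rw [h4, zero_mul] at hid
  have h5 : β * (f * C') = 0 := neg_eq_zero.mp hid.symm
  rcases mul_eq_zero.mp h5 with h6 | h6
  · exact hβ0 h6
  · rcases mul_eq_zero.mp h6 with h7 | h7
    · exact hf.ne_zero h7
    · exact hCf (h7 ▸ dvd_zero f)

theorem notMem_cl_B (hx : AlgebraicIndependent k x) (hf : Irreducible f) {j : ι}
    (h1 : 1 ≤ degreeOf j f) {C' D : MvPolynomial ι k} {e : k}
    {m : ℕ} (hC : f ∣ C' - C e * pderiv j f ^ m) (hD : f ∣ D - pderiv j f ^ (m + 1))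
    (he : 1 + e ≠ 0) (hq : ¬ f ∣ pderiv j f) :
    x j + aeval x (f * C') / aeval x D ∉ cl k (x '' {j}ᶜ) := by
  classical
  have hp : Prime f := hf.prime
  have hDf : ¬ f ∣ D := by
    intro h
    have h2 := dvd_sub h hD
    rw [sub_sub_cancel] at h2
    exact hq (hp.dvd_of_dvd_pow h2)
  intro hcl
  have hD0 : D ≠ 0 := by
    rintro rfl
    exact hDf (dvd_zero f)
  obtain ⟨α, β, hα, hβ, hβ0, hid⟩ := identity hx hD0 hcl
  have h2 : f ∣ (β * X j - α) * D := by
    rw [hid]
    exact ⟨-(β * C'), by ring⟩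
  obtain ⟨γ, hγ⟩ := (hp.dvd_or_dvd h2).resolve_right hDf
  have hα' := hα j (by simp)
  have hβ' := hβ j (by simp)
  have h3 : γ * D = - (β * C') := by
    apply mul_left_cancel₀ hf.ne_zero
    rw [hγ] at hid
    linear_combination hid
  have h4 : f ∣ pderiv j f ^ m * (γ * pderiv j f + C e * β) := by
    have h5 : pderiv j f ^ m * (γ * pderiv j f + C e * β) =
        - (γ * (D - pderiv j f ^ (m + 1))) - β * (C' - C e * pderiv j f ^ m) := by
      rw [pow_succ]
      linear_combination h3
    rw [h5]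
    exact dvd_sub ((hD.mul_left γ).neg_right) (hC.mul_left β)
  have h5 : f ∣ γ * pderiv j f + C e * β :=
    (hp.dvd_or_dvd h4).resolve_left fun h => hq (hp.dvd_of_dvd_pow h)
  have h6 : β = pderiv j f * γ + f * pderiv j γ := by
    have h7 := congrArg (pderiv j) hγ
    rw [map_sub, pderiv_mul, pderiv_mul, pderiv_X_self, pderiv_eq_zero_of_degreeOf hα',
      pderiv_eq_zero_of_degreeOf hβ'] at h7
    linear_combination h7
  have h7 : f ∣ C (1 + e) * β := by
    have h8 : C (1 + e) * β = (γ * pderiv j f + C e * β) + f * pderiv j γ := by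
      rw [C_add, C_1]
      linear_combination h6
    rw [h8]
    exact dvd_add h5 (Dvd.intro _ rfl)
  have h8 := degreeOf_le_of_dvd (dvd_of_unit_mul he h7) hβ0 j
  omega

end NA

end Pool.Agent.R867.Mov
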