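import Pool.Agent.R867.Mov.Core

/-! Specialization of a generic family at a rational point. -/

set_option autoImplicit false

namespace Pool.Agent.R867.Mov

open MvPolynomial IntermediateField

universe u v w

/-- A point with the ideal of the generic point gives an embedding. -/
theorem embed {k : Type u} {K : Type v} {E : Type w} [Field k] [Field K] [Algebra k K] [Field E]
    [Algebra k E] {N : ℕ} {x : Fin N → K} (hx2 : adjoin k (Set.range x) = ⊤) {c : Fin N → E}
    (h1 : ∀ P : MvPolynomial (Fin N) k, aeval x P = 0 → aeval c P = 0)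
    (h2 : ∀ P : MvPolynomial (Fin N) k, aeval c P = 0 → aeval x P = 0) :
    Nonempty (K →ₐ[k] E) := by
  have hfrac : ∀ f : K, ∃ P Q : MvPolynomial (Fin N) k, aeval x Q ≠ 0 ∧
      f * aeval x Q = aeval x P := by
    intro f
    have hf : f ∈ adjoin k (Set.range x) := by
      rw [hx2]; trivial
    rw [mem_adjoin_range_iff] at hf
    obtain ⟨r, s, hrs⟩ := hf
    by_cases hs : aeval x s = 0
    · rw [hs, div_zero] at hrs
      exact ⟨0, 1, by simp, by simp [hrs]⟩
    · exact ⟨r, s, hs, by rw [hrs, div_mul_cancel₀ _ hs]⟩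
  choose Pf Qf hQf hPf using hfrac
  have hQc : ∀ Q : MvPolynomial (Fin N) k, aeval x Q ≠ 0 → aeval c Q ≠ 0 :=
    fun Q hQ h => hQ (h2 Q h)
  have key : ∀ (f : K) (P Q : MvPolynomial (Fin N) k), aeval x Q ≠ 0 →
      f * aeval x Q = aeval x P → aeval c (Pf f) / aeval c (Qf f) = aeval c P / aeval c Q := by
    intro f P Q hQ hf
    rw [div_eq_div_iff (hQc _ (hQf f)) (hQc _ hQ), ← map_mul, ← map_mul, ← sub_eq_zero, ← map_sub]
    apply h1
    rw [map_sub, map_mul, map_mul, ← hPf, ← hf]
    ring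
  refine ⟨{ toFun := fun f => aeval c (Pf f) / aeval c (Qf f), map_one' := ?_, map_mul' := ?_,
            map_zero' := ?_, map_add' := ?_, commutes' := ?_ }⟩
  · rw [key 1 1 1 (by simp) (by simp)]
    simp
  · intro f g
    rw [key (f * g) (Pf f * Pf g) (Qf f * Qf g) (by
      rw [map_mul]; exact mul_ne_zero (hQf f) (hQf g)) (by
      rw [map_mul, map_mul, ← hPf, ← hPf]; ring), map_mul, map_mul, mul_div_mul_comm]
  · change aeval c (Pf 0) / aeval c (Qf 0) = 0
    rw [key 0 0 1 (by simp) (by simp)]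
    simp
  · intro f g
    change aeval c (Pf (f + g)) / aeval c (Qf (f + g)) =
      aeval c (Pf f) / aeval c (Qf f) + aeval c (Pf g) / aeval c (Qf g)
    rw [key (f + g) (Pf f * Qf g + Pf g * Qf f) (Qf f * Qf g) (by
      rw [map_mul]; exact mul_ne_zero (hQf f) (hQf g)) (by
      rw [map_mul, map_add, map_mul, map_mul, ← hPf, ← hPf]; ring), map_add, map_mul, map_mul,
      map_mul, div_add_div _ _ (hQc _ (hQf f)) (hQc _ (hQf g))]
    ring
  · intro a
    change aeval c (Pf _) / aeval c (Qf _) = _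
    rw [key _ (C a) 1 (by simp) (by simp)]
    simp

/-- The rational points of the variety with the generic point `x` are dense. -/
def DensePts (k : Type u) {K : Type v} [Field k] [Field K] [Algebra k K] {N : ℕ} (x : Fin N → K) :
    Prop :=
  ∀ G : MvPolynomial (Fin N) k, aeval x G ≠ 0 → ∃ c : Fin N → k,
    (∀ P : MvPolynomial (Fin N) k, aeval x P = 0 → eval c P = 0) ∧ eval c G ≠ 0

theorem densePts_of_isAlgClosed {k : Type u} {K : Type v} [Field k] [IsAlgClosed k] [Field K]
    [Algebra k K] {N : ℕ} (x : Fin N → K) : DensePts k x := by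
  intro G hG
  let I : Ideal (MvPolynomial (Fin N) k) := RingHom.ker (aeval x : _ →ₐ[k] K)
  have hI : I.IsPrime := RingHom.ker_isPrime _
  have h1 : G ∉ vanishingIdeal k (zeroLocus k I) := by
    rw [MvPolynomial.IsPrime.vanishingIdeal_zeroLocus I]
    exact fun h => hG (RingHom.mem_ker.mp h)
  rw [mem_vanishingIdeal_iff] at h1
  push Not at h1
  obtain ⟨c, hc, hcG⟩ := h1
  have hev : ∀ P : MvPolynomial (Fin N) k, aeval c P = eval c P := fun P => by
    rw [← MvPolynomial.coe_aeval_eq_eval]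
    rfl
  refine ⟨c, fun P hP => ?_, ?_⟩
  · rw [← hev]
    exact (mem_zeroLocus_iff.mp hc) P (RingHom.mem_ker.mpr hP)
  · rwa [← hev]

section

variable {k K : Type u} [Field k] [Field K] [Algebra k K] {N n : ℕ}

/-- the evaluation at the generic point -/
noncomputable def evx (x : Fin N → K) : MvPolynomial (Fin N) k →+* K :=
  ((aeval x : MvPolynomial (Fin N) k →ₐ[k] K) : MvPolynomial (Fin N) k →+* K)

theorem evx_apply (x : Fin N → K) (P : MvPolynomial (Fin N) k) : evx x P = aeval x P := rfl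

/-- polynomials in the parameters with coefficients in the coordinate ring, as rational functions
over `K` -/
noncomputable def ΦR (x : Fin N → K) (n : ℕ) :
    MvPolynomial (Fin n) (MvPolynomial (Fin N) k) →+* Rt n K :=
  (algebraMap (MvPolynomial (Fin n) K) (Rt n K)).comp (MvPolynomial.map (evx x))

theorem ΦR_apply (x : Fin N → K) (P : MvPolynomial (Fin n) (MvPolynomial (Fin N) k)) :
    ΦR x n P = algebraMap (MvPolynomial (Fin n) K) (Rt n K) (MvPolynomial.map (evx x) P) := rfl

/-- and at a rational point -/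
noncomputable def evR (c : Fin N → k) (n : ℕ) :
    MvPolynomial (Fin n) (MvPolynomial (Fin N) k) →+* Rt n k :=
  (algebraMap (MvPolynomial (Fin n) k) (Rt n k)).comp (MvPolynomial.map (eval c))

theorem evR_apply (c : Fin N → k) (P : MvPolynomial (Fin n) (MvPolynomial (Fin N) k)) :
    evR c n P = algebraMap (MvPolynomial (Fin n) k) (Rt n k) (MvPolynomial.map (eval c) P) := rfl

theorem ΦR_C (x : Fin N → K) (a : MvPolynomial (Fin N) k) :
    ΦR x n (C a) = algebraMap K (Rt n K) (aeval x a) := by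
  rw [ΦR_apply, map_C, IsScalarTower.algebraMap_apply K (MvPolynomial (Fin n) K) (Rt n K)]
  rfl

theorem ΦR_X (x : Fin N → K) (i : Fin n) :
    ΦR (k := k) x n (X i) = algebraMap (MvPolynomial (Fin n) K) (Rt n K) (X i) := by
  rw [ΦR_apply, map_X]

theorem evR_C (c : Fin N → k) (a : MvPolynomial (Fin N) k) :
    evR c n (C a) = algebraMap k (Rt n k) (eval c a) := by
  rw [evR_apply, map_C, IsScalarTower.algebraMap_apply k (MvPolynomial (Fin n) k) (Rt n k)]
  rfl

theorem evR_X (c : Fin N → k) (i : Fin n) :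
    evR c n (X i) = algebraMap (MvPolynomial (Fin n) k) (Rt n k) (X i) := by
  rw [evR_apply, map_X]

theorem rt_inj (F : Type u) [Field F] (n : ℕ) :
    Function.Injective (algebraMap (MvPolynomial (Fin n) F) (Rt n F)) :=
  IsFractionRing.injective (MvPolynomial (Fin n) F) (Rt n F)

theorem evR_zero {x : Fin N → K} {c : Fin N → k}
    (hc : ∀ P : MvPolynomial (Fin N) k, aeval x P = 0 → eval c P = 0)
    {P : MvPolynomial (Fin n) (MvPolynomial (Fin N) k)} (hP : ΦR x n P = 0) : evR c n P = 0 := by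
  have h1 : MvPolynomial.map (evx x) P = 0 := by
    rw [ΦR_apply] at hP
    exact (map_eq_zero_iff _ (rt_inj K n)).mp hP
  have h2 : MvPolynomial.map (eval c) P = 0 := by
    ext m
    rw [coeff_map, coeff_zero]
    apply hc
    have h3 := congrArg (coeff m) h1
    rw [coeff_map, coeff_zero] at h3
    exact h3
  rw [evR_apply, h2, map_zero]

theorem evR_ne {x : Fin N → K} {P : MvPolynomial (Fin n) (MvPolynomial (Fin N) k)}
    (hP : ΦR x n P ≠ 0) : ∃ g : MvPolynomial (Fin N) k, aeval x g ≠ 0 ∧ ∀ c : Fin N → k,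
      eval c g ≠ 0 → evR c n P ≠ 0 := by
  have h1 : MvPolynomial.map (evx x) P ≠ 0 := by
    intro h
    apply hP
    rw [ΦR_apply, h, map_zero]
  rw [ne_zero_iff] at h1
  obtain ⟨m, hm⟩ := h1
  rw [coeff_map] at hm
  refine ⟨coeff m P, hm, fun c hc h => hc ?_⟩
  have h2 : MvPolynomial.map (eval c) P = 0 := by
    rw [evR_apply] at h
    exact (map_eq_zero_iff _ (rt_inj k n)).mp h
  have h3 := congrArg (coeff m) h2
  rwa [coeff_map, coeff_zero] at h3

theorem exists_frac {x : Fin N → K} (hx : adjoin k (Set.range x) = ⊤) (f : K) :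
    ∃ P Q : MvPolynomial (Fin N) k, aeval x Q ≠ 0 ∧ f * aeval x Q = aeval x P := by
  have hf : f ∈ adjoin k (Set.range x) := by
    rw [hx]; trivial
  rw [mem_adjoin_range_iff] at hf
  obtain ⟨r, s, hrs⟩ := hf
  by_cases hs : aeval x s = 0
  · rw [hs, div_zero] at hrs
    exact ⟨0, 1, by simp, by simp [hrs]⟩
  · exact ⟨r, s, hs, by rw [hrs, div_mul_cancel₀ _ hs]⟩

theorem exists_poly {x : Fin N → K} (hx : adjoin k (Set.range x) = ⊤) (p : MvPolynomial (Fin n) K) :
    ∃ (P : MvPolynomial (Fin n) (MvPolynomial (Fin N) k)) (a : MvPolynomial (Fin N) k),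
      aeval x a ≠ 0 ∧ ΦR x n P = algebraMap K (Rt n K) (aeval x a) *
        algebraMap (MvPolynomial (Fin n) K) (Rt n K) p := by
  induction p using MvPolynomial.induction_on with
  | C c =>
    obtain ⟨P, Q, hQ, hPQ⟩ := exists_frac hx c
    refine ⟨C P, Q, hQ, ?_⟩
    rw [ΦR_C, ← hPQ, IsScalarTower.algebraMap_apply K (MvPolynomial (Fin n) K) (Rt n K),
      IsScalarTower.algebraMap_apply K (MvPolynomial (Fin n) K) (Rt n K), ← map_mul,
      algebraMap_eq, ← C_mul, mul_comm]
  | add p q hp hq =>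
    obtain ⟨P, a, ha, hP⟩ := hp
    obtain ⟨Q, b, hb, hQ⟩ := hq
    refine ⟨C b * P + C a * Q, a * b, by rw [map_mul]; exact mul_ne_zero ha hb, ?_⟩
    rw [map_add, map_mul, map_mul, hP, hQ, ΦR_C, ΦR_C, map_mul, map_mul, map_add]
    ring
  | mul_X p i hp =>
    obtain ⟨P, a, ha, hP⟩ := hp
    refine ⟨P * X i, a, ha, ?_⟩
    rw [map_mul, hP, map_mul, mul_assoc, ΦR_X]

/-- common denominators for finitely many rational functions over `K` -/
theorem exists_common {x : Fin N → K} (hx : adjoin k (Set.range x) = ⊤) (M : ℕ)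
    (z : Fin M → Rt n K) : ∃ (P : Fin M → MvPolynomial (Fin n) (MvPolynomial (Fin N) k))
      (D : MvPolynomial (Fin n) (MvPolynomial (Fin N) k)), ΦR x n D ≠ 0 ∧
      ∀ i, z i * ΦR x n D = ΦR x n (P i) := by
  classical
  have h1 : ∀ i, ∃ P D : MvPolynomial (Fin n) (MvPolynomial (Fin N) k), ΦR x n D ≠ 0 ∧
      z i * ΦR x n D = ΦR x n P := by
    intro i
    obtain ⟨p, q, hq, hz⟩ := IsFractionRing.div_surjective (A := MvPolynomial (Fin n) K) (z i)
    obtain ⟨P, a, ha, hP⟩ := exists_poly (k := k) hx p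
    obtain ⟨Q, b, hb, hQ⟩ := exists_poly (k := k) hx q
    have hq0 : algebraMap (MvPolynomial (Fin n) K) (Rt n K) q ≠ 0 := by
      rw [Ne, map_eq_zero_iff _ (rt_inj K n)]
      exact nonZeroDivisors.ne_zero hq
    have hb0 : algebraMap K (Rt n K) (aeval x b) ≠ 0 := by
      rwa [Ne, map_eq_zero]
    have ha0 : algebraMap K (Rt n K) (aeval x a) ≠ 0 := by
      rwa [Ne, map_eq_zero]
    refine ⟨C b * P, C a * Q, ?_, ?_⟩
    · rw [map_mul, ΦR_C, hQ]
      exact mul_ne_zero ha0 (mul_ne_zero hb0 hq0)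
    · rw [map_mul, map_mul, ΦR_C, ΦR_C, hP, hQ, ← hz]
      field_simp
  choose P D hD hP using h1
  refine ⟨fun i => P i * ∏ j ∈ Finset.univ.erase i, D j, ∏ j, D j, ?_, fun i => ?_⟩
  · rw [map_prod]
    exact Finset.prod_ne_zero_iff.mpr fun j _ => hD j
  · rw [← Finset.mul_prod_erase Finset.univ D (Finset.mem_univ i), map_mul, map_mul, ← hP]
    ring

end

end Pool.Agent.R867.Mov
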