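import Pool.Agent.R867.Mov.Spec

/-! Specialization of a generic family at a rational point. -/

set_option autoImplicit false

namespace Pool.Agent.R867.Mov

open MvPolynomial IntermediateField

universe u v w

theorem isAlg_of_adjoin {k : Type u} {E : Type v} [Field k] [Field E] [Algebra k E]
    (R : Subalgebra k E) {ι : Type*} (t : ι → E) (ht : adjoin k (Set.range t) = ⊤)
    (h : ∀ i, IsAlgebraic R (t i)) : Algebra.IsAlgebraic R E := by
  constructor
  intro z
  have hz : z ∈ adjoin k (Set.range t) := by rw [ht]; trivial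
  rw [mem_adjoin_range_iff] at hz
  obtain ⟨p, q, rfl⟩ := hz
  have h1 : ∀ p : MvPolynomial ι k, IsAlgebraic R (aeval t p) := by
    intro p
    induction p using MvPolynomial.induction_on with
    | C a =>
      rw [aeval_C]
      exact isAlgebraic_algebraMap (⟨algebraMap k E a, R.algebraMap_mem a⟩ : R)
    | add p q hp hq =>
      rw [map_add]
      exact hp.add hq
    | mul_X p i hp =>
      rw [map_mul, aeval_X]
      exact hp.mul (h i)
  rw [div_eq_mul_inv]
  exact (h1 p).mul (h1 q).inv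

section Family

variable {k K : Type u} [Field k] [Field K] [Algebra k K] {N n : ℕ}

/-- the coordinates of the generic point, of its image and the parameters -/
noncomputable def fam (x : Fin N → K) (y : Fin N → Rt n K) : Fin N ⊕ (Fin N ⊕ Fin n) → Rt n K :=
  Sum.elim (algebraMap K (Rt n K) ∘ x)
    (Sum.elim y (fun j => algebraMap (MvPolynomial (Fin n) K) (Rt n K) (X j)))

theorem clear {x : Fin N → K} {y : Fin N → Rt n K}
    {P : Fin N → MvPolynomial (Fin n) (MvPolynomial (Fin N) k)}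
    {D : MvPolynomial (Fin n) (MvPolynomial (Fin N) k)}
    (hy : ∀ i, y i * ΦR x n D = ΦR x n (P i)) (w : MvPolynomial (Fin N ⊕ (Fin N ⊕ Fin n)) k) :
    ∃ (Q : MvPolynomial (Fin n) (MvPolynomial (Fin N) k)) (e : ℕ),
      aeval (fam x y) w * ΦR x n D ^ e = ΦR x n Q ∧
      ∀ (c : Fin N → k) (yc : Fin N → Rt n k), (∀ i, yc i * evR c n D = evR c n (P i)) →
        aeval (fam c yc) w * evR c n D ^ e = evR c n Q := by
  induction w using MvPolynomial.induction_on with
  | C a =>
    refine ⟨C (C a), 0, ?_, fun c yc _ => ?_⟩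
    · rw [ΦR_C, aeval_C, aeval_C, pow_zero, mul_one, ← IsScalarTower.algebraMap_apply]
    · rw [evR_C, aeval_C, eval_C, pow_zero, mul_one]
  | add p q hp hq =>
    obtain ⟨Q₁, e₁, h₁, h₁'⟩ := hp
    obtain ⟨Q₂, e₂, h₂, h₂'⟩ := hq
    refine ⟨Q₁ * D ^ e₂ + Q₂ * D ^ e₁, e₁ + e₂, ?_, fun c yc hc => ?_⟩
    · rw [map_add, map_add, map_mul, map_mul, map_pow, map_pow, ← h₁, ← h₂]
      ring
    · rw [map_add, map_add, map_mul, map_mul, map_pow, map_pow, ← h₁' c yc hc, ← h₂' c yc hc]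
      ring
  | mul_X p i hp =>
    obtain ⟨Q, e, h, h'⟩ := hp
    rcases i with i | i | i
    · refine ⟨Q * C (X i), e, ?_, fun c yc hc => ?_⟩
      · rw [map_mul, map_mul, ← h, ΦR_C, aeval_X, aeval_X]
        change _ * algebraMap K (Rt n K) (x i) * _ = _
        ring
      · rw [map_mul, map_mul, ← h' c yc hc, evR_C, aeval_X, eval_X]
        change _ * algebraMap k (Rt n k) (c i) * _ = _
        ring
    · refine ⟨Q * P i, e + 1, ?_, fun c yc hc => ?_⟩
      · rw [map_mul, map_mul, ← h, ← hy, aeval_X]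
        change _ * y i * _ = _
        ring
      · rw [map_mul, map_mul, ← h' c yc hc, ← hc, aeval_X]
        change _ * yc i * _ = _
        ring
    · refine ⟨Q * X i, e, ?_, fun c yc hc => ?_⟩
      · rw [map_mul, map_mul, ← h, ΦR_X, aeval_X]
        change _ * algebraMap (MvPolynomial (Fin n) K) (Rt n K) (X i) * _ = _
        ring
      · rw [map_mul, map_mul, ← h' c yc hc, evR_X, aeval_X]
        change _ * algebraMap (MvPolynomial (Fin n) k) (Rt n k) (X i) * _ = _
        ring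

/-- a good specialization -/
structure Good (x : Fin N → K) (P : Fin N → MvPolynomial (Fin n) (MvPolynomial (Fin N) k))
    (D : MvPolynomial (Fin n) (MvPolynomial (Fin N) k)) (c : Fin N → k) (yc : Fin N → Rt n k) :
    Prop where
  pt : ∀ Q : MvPolynomial (Fin N) k, aeval x Q = 0 → eval c Q = 0
  den : evR c n D ≠ 0
  val : ∀ i, yc i * evR c n D = evR c n (P i)

theorem Good.zero {x : Fin N → K} {y : Fin N → Rt n K}
    {P : Fin N → MvPolynomial (Fin n) (MvPolynomial (Fin N) k)}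
    {D : MvPolynomial (Fin n) (MvPolynomial (Fin N) k)}
    (hy : ∀ i, y i * ΦR x n D = ΦR x n (P i)) {c : Fin N → k} {yc : Fin N → Rt n k}
    (hg : Good x P D c yc) {w : MvPolynomial (Fin N ⊕ (Fin N ⊕ Fin n)) k}
    (hw : aeval (fam x y) w = 0) : aeval (fam c yc) w = 0 := by
  obtain ⟨Q, e, h, h'⟩ := clear hy w
  rw [hw, zero_mul] at h
  have h1 := evR_zero hg.pt h.symm
  have h2 := h' c yc hg.val
  rw [h1] at h2
  exact (mul_eq_zero.mp h2).resolve_right (pow_ne_zero _ hg.den)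

theorem exists_ne {x : Fin N → K} {y : Fin N → Rt n K}
    {P : Fin N → MvPolynomial (Fin n) (MvPolynomial (Fin N) k)}
    {D : MvPolynomial (Fin n) (MvPolynomial (Fin N) k)} (hD : ΦR x n D ≠ 0)
    (hy : ∀ i, y i * ΦR x n D = ΦR x n (P i)) {w : MvPolynomial (Fin N ⊕ (Fin N ⊕ Fin n)) k}
    (hw : aeval (fam x y) w ≠ 0) : ∃ g : MvPolynomial (Fin N) k, aeval x g ≠ 0 ∧
      ∀ (c : Fin N → k) (yc : Fin N → Rt n k), Good x P D c yc → eval c g ≠ 0 →
        aeval (fam c yc) w ≠ 0 := by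
  obtain ⟨Q, e, h, h'⟩ := clear hy w
  have h1 : ΦR x n Q ≠ 0 := by
    rw [← h]
    exact mul_ne_zero hw (pow_ne_zero _ hD)
  obtain ⟨g, hg, hg'⟩ := evR_ne h1
  refine ⟨g, hg, fun c yc hgood hc h0 => ?_⟩
  have h2 := h' c yc hgood.val
  rw [h0, zero_mul] at h2
  exact hg' c hc h2.symm

theorem adjoin_image_eq {ι : Type*} {E : Type*} [Field E] [Algebra k E] (F : ι → E) (G : Set ι)
    {z : E} (hz : z ∈ Algebra.adjoin k (F '' G)) :
    ∃ R : MvPolynomial ι k, aeval F R = z ∧ ∀ {E' : Type u} [Field E'] [Algebra k E'] (F' : ι → E'),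
      aeval F' R ∈ Algebra.adjoin k (F' '' G) := by
  have h1 : F '' G = Set.range (fun i : G => F i) := by
    ext; simp
  rw [h1, Algebra.adjoin_range_eq_range_aeval] at hz
  obtain ⟨R, rfl⟩ := hz
  refine ⟨rename Subtype.val R, ?_, fun F' => ?_⟩
  · rw [aeval_rename]
    rfl
  · have h2 : F' '' G = Set.range (fun i : G => F' i) := by
      ext; simp
    rw [h2, Algebra.adjoin_range_eq_range_aeval, aeval_rename]
    exact ⟨R, rfl⟩

theorem algSpec {x : Fin N → K} {y : Fin N → Rt n K}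
    {P : Fin N → MvPolynomial (Fin n) (MvPolynomial (Fin N) k)}
    {D : MvPolynomial (Fin n) (MvPolynomial (Fin N) k)} (hD : ΦR x n D ≠ 0)
    (hy : ∀ i, y i * ΦR x n D = ΦR x n (P i)) (G : Set (Fin N ⊕ (Fin N ⊕ Fin n)))
    (l : Fin N ⊕ (Fin N ⊕ Fin n))
    (hl : IsAlgebraic (Algebra.adjoin k (fam x y '' G)) (fam x y l)) :
    ∃ g : MvPolynomial (Fin N) k, aeval x g ≠ 0 ∧
      ∀ (c : Fin N → k) (yc : Fin N → Rt n k), Good x P D c yc → eval c g ≠ 0 →
        IsAlgebraic (Algebra.adjoin k (fam c yc '' G)) (fam c yc l) := by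
  obtain ⟨p, hp0, hp⟩ := hl
  have h1 : ∀ m, ∃ R : MvPolynomial (Fin N ⊕ (Fin N ⊕ Fin n)) k, aeval (fam x y) R = (p.coeff m : Rt n K) ∧
      ∀ {E' : Type u} [Field E'] [Algebra k E'] (F' : Fin N ⊕ (Fin N ⊕ Fin n) → E'),
      aeval F' R ∈ Algebra.adjoin k (F' '' G) :=
    fun m => adjoin_image_eq _ _ (p.coeff m).2
  choose R hR hR' using h1
  obtain ⟨m₀, hm₀⟩ : ∃ m, p.coeff m ≠ 0 := by
    by_contra h
    push Not at h
    exact hp0 (Polynomial.ext h)
  have hm₀' : aeval (fam x y) (R m₀) ≠ 0 := by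
    rw [hR]
    exact fun h => hm₀ (Subtype.ext h)
  obtain ⟨g, hg, hg'⟩ := exists_ne hD hy hm₀'
  refine ⟨g, hg, fun c yc hgood hc => ?_⟩
  have hz : aeval (fam x y) (∑ m ∈ Finset.range (p.natDegree + 1), R m * X l ^ m) = 0 := by
    rw [← hp, Polynomial.aeval_eq_sum_range, map_sum]
    refine Finset.sum_congr rfl fun m _ => ?_
    rw [map_mul, map_pow, aeval_X, hR, Algebra.smul_def]
    rfl
  have hz' := hgood.zero hy hz
  have hm₀r : m₀ ∈ Finset.range (p.natDegree + 1) :=
    Finset.mem_range_succ_iff.mpr (Polynomial.le_natDegree_of_ne_zero hm₀)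
  refine ⟨∑ m ∈ Finset.range (p.natDegree + 1), Polynomial.C
      (⟨aeval (fam c yc) (R m), hR' m _⟩ : Algebra.adjoin k (fam c yc '' G)) * Polynomial.X ^ m,
      ?_, ?_⟩
  · intro h
    have h2 := congrArg (fun q => Polynomial.coeff q m₀) h
    simp only [Polynomial.finsetSum_coeff, Polynomial.coeff_C_mul, Polynomial.coeff_X_pow,
      Polynomial.coeff_zero, mul_ite, mul_one, mul_zero] at h2
    rw [Finset.sum_ite_eq, if_pos hm₀r] at h2
    exact hg' c yc hgood hc (congrArg Subtype.val h2)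
  · rw [map_sum]
    rw [map_sum] at hz'
    rw [← hz']
    refine Finset.sum_congr rfl fun m _ => ?_
    rw [map_mul, map_mul, map_pow, map_pow, aeval_X, Polynomial.aeval_X, Polynomial.aeval_C]
    rfl

end Family

end Pool.Agent.R867.Mov
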