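import Pool.Agent.R867.Mov.Spec2

/-! Specialization of a generic family at a rational point: the main theorem. -/

set_option autoImplicit false

namespace Pool.Agent.R867.Mov

open MvPolynomial IntermediateField

universe u v w

theorem maxIndep {k : Type u} {E : Type v} [Field k] [Field E] [Algebra k E] {ι : Type*} [Finite ι]
    (v : ι → E) (S₀ : Set ι) (h : AlgebraicIndepOn k v S₀) :
    ∃ S : Set ι, S₀ ⊆ S ∧ AlgebraicIndepOn k v S ∧
      ∀ i, IsAlgebraic (Algebra.adjoin k (v '' S)) (v i) := by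
  obtain ⟨S, hS, hmax⟩ := Finite.exists_le_maximal (p := fun S => AlgebraicIndepOn k v S) h
  refine ⟨S, hS, hmax.prop, fun i => ?_⟩
  by_contra htr
  have h1 := hmax.prop.insert htr
  have h2 := hmax.le_of_ge h1 (Set.subset_insert i S)
  exact htr (isAlgebraic_algebraMap (⟨v i, Algebra.subset_adjoin
    ⟨i, h2 (Set.mem_insert i S), rfl⟩⟩ : Algebra.adjoin k (v '' S)))

section

variable {k K : Type u} [Field k] [Field K] [Algebra k K] {N n : ℕ}

theorem indep_of_lin {φ : K →ₐ[k] Rt n K}
    (hφ : ∀ (m : ℕ) (w : Fin m → K), LinearIndependent k w → LinearIndependent K (φ ∘ w))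
    {ι : Type v} {u : ι → K} (hu : AlgebraicIndependent k u) : AlgebraicIndependent K (φ ∘ u) := by
  classical
  have h0 : ∀ (s : Finset (ι →₀ ℕ)) (w : (ι →₀ ℕ) → K), LinearIndependent k w →
      LinearIndependent K (φ ∘ w ∘ (Subtype.val : s → (ι →₀ ℕ))) := by
    intro s w hw
    have h1 := hφ s.card (w ∘ Subtype.val ∘ s.equivFin.symm)
      (hw.comp _ (Subtype.val_injective.comp s.equivFin.symm.injective))
    have h2 := h1.comp s.equivFin s.equivFin.injective
    have h3 : (φ ∘ w ∘ Subtype.val ∘ s.equivFin.symm) ∘ s.equivFin =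
        φ ∘ w ∘ (Subtype.val : s → (ι →₀ ℕ)) := by
      funext i
      simp
    rwa [h3] at h2
  have h1 : LinearIndependent k (fun m : ι →₀ ℕ => aeval u (monomial m (1 : k))) := by
    have h2 := (basisMonomials ι k).linearIndependent.map'
      (aeval u : MvPolynomial ι k →ₐ[k] K).toLinearMap (LinearMap.ker_eq_bot.mpr hu)
    have h3 : ((aeval u : MvPolynomial ι k →ₐ[k] K).toLinearMap ∘ basisMonomials ι k) =
        fun m : ι →₀ ℕ => aeval u (monomial m (1 : k)) := by
      funext m
      simp
    rwa [h3] at h2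
  have h2 : LinearIndependent K (φ ∘ fun m : ι →₀ ℕ => aeval u (monomial m (1 : k))) := by
    rw [linearIndependent_iff_finset_linearIndependent]
    exact fun s => h0 s _ h1
  have h3 : ∀ m : ι →₀ ℕ, φ (aeval u (monomial m (1 : k))) =
      aeval (φ ∘ u) (monomial m (1 : K)) := by
    intro m
    rw [aeval_monomial, aeval_monomial, map_one, map_one, one_mul, one_mul, Finsupp.prod,
      Finsupp.prod, map_prod]
    refine Finset.prod_congr rfl fun i _ => ?_
    rw [map_pow]
    rfl
  unfold AlgebraicIndependent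
  rw [injective_iff_map_eq_zero]
  intro p hp
  rw [linearIndependent_iff'] at h2
  have h4 : ∑ m ∈ p.support, p.coeff m • (φ ∘ fun m : ι →₀ ℕ => aeval u (monomial m (1 : k))) m
      = 0 := by
    rw [← hp]
    conv_rhs => rw [p.as_sum]
    rw [map_sum]
    refine Finset.sum_congr rfl fun m _ => ?_
    rw [Function.comp_apply, h3, ← map_smul, smul_monomial, smul_eq_mul, mul_one]
  have h5 := h2 _ _ h4
  ext m
  rw [coeff_zero]
  by_cases hm : m ∈ p.support
  · exact h5 m hm
  · simpa using hm

theorem trdeg_rt (F : Type u) [Field F] (n : ℕ) : Algebra.trdeg F (Rt n F) = n := by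
  have h1 : IsTranscendenceBasis F (fun i : Fin n =>
      algebraMap (MvPolynomial (Fin n) F) (Rt n F) (X i)) := by
    refine (algInd_X F n).isTranscendenceBasis_iff_isAlgebraic.mpr ?_
    refine isAlg_of_adjoin _ _ (adjoin_X F n) fun i => ?_
    exact isAlgebraic_algebraMap (⟨_, Algebra.subset_adjoin ⟨i, rfl⟩⟩ : Algebra.adjoin F
      (Set.range fun i : Fin n => algebraMap (MvPolynomial (Fin n) F) (Rt n F) (X i)))
  have h2 := h1.lift_cardinalMk_eq_trdeg
  simpa using h2.symm

theorem specialize {x : Fin N → K} (hx : adjoin k (Set.range x) = ⊤) (hd : DensePts k x)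
    (φ : K →ₐ[k] Rt n K)
    (hφ : ∀ (ι : Type) (u : ι → K), AlgebraicIndependent k u → AlgebraicIndependent K (φ ∘ u)) :
    Nonempty (K →ₐ[k] Rt n k) := by
  classical
  obtain ⟨P, D, hD, hP⟩ := exists_common (n := n) hx N (fun i => φ (x i))
  obtain ⟨y, hy⟩ : ∃ y : Fin N → Rt n K, y = fun i => φ (x i) := ⟨_, rfl⟩
  have hyP : ∀ i, y i * ΦR x n D = ΦR x n (P i) := by rw [hy]; exact hP
  -- a transcendence basis of `K` over `k`
  obtain ⟨J, -, hJ, hJa⟩ := maxIndep (k := k) x ∅ (by
    rw [AlgebraicIndepOn, algebraicIndependent_empty_type_iff]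
    exact (algebraMap k K).injective)
  have hKa : Algebra.IsAlgebraic (Algebra.adjoin k (x '' J)) K := isAlg_of_adjoin _ x hx hJa
  -- a transcendence basis of `Rt n K` over `K`
  obtain ⟨v, hv⟩ : ∃ v : Fin N ⊕ Fin n → Rt n K, v = Sum.elim y
    (fun j => algebraMap (MvPolynomial (Fin n) K) (Rt n K) (X j)) := ⟨_, rfl⟩
  have hJv : AlgebraicIndepOn K v (Sum.inl '' J) := by
    have h1 := hφ J _ hJ
    have h2 : AlgebraicIndependent K (fun i : (Sum.inl '' J : Set (Fin N ⊕ Fin n)) => v i) := by
      have h3 := h1.comp (Equiv.Set.image _ J (Sum.inl_injective (β := Fin n))).symm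
        (Equiv.injective _)
      have h5 : ((φ ∘ fun i : J => x i) ∘ (Equiv.Set.image _ J
          (Sum.inl_injective (β := Fin n))).symm) =
          (fun i : (Sum.inl '' J : Set (Fin N ⊕ Fin n)) => v i) := by
        funext i
        obtain ⟨i, j, hj, rfl⟩ := i
        have h4 : (Equiv.Set.image _ J (Sum.inl_injective (β := Fin n))).symm
            ⟨Sum.inl j, j, hj, rfl⟩ = ⟨j, hj⟩ := by
          rw [Equiv.symm_apply_eq]
          rfl
        simp only [Function.comp_apply, h4]
        rw [hv, hy]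
        rfl
      rw [← h5]
      exact h3
    exact h2
  obtain ⟨S, hJS, hS, hSa⟩ := maxIndep v _ hJv
  have hcard : Cardinal.mk S ≤ n := by
    have h1 := hS.lift_cardinalMk_le_trdeg
    rw [trdeg_rt] at h1
    simpa using h1
  obtain ⟨G, hG⟩ : ∃ G : Set (Fin N ⊕ (Fin N ⊕ Fin n)), G = Set.range Sum.inl ∪ Sum.inr '' S :=
    ⟨_, rfl⟩
  -- the parameters are algebraic over the family indexed by `G`
  have hTa : ∀ l : Fin N ⊕ Fin n,
      IsAlgebraic (Algebra.adjoin k (fam x y '' G)) (fam x y (Sum.inr l)) := by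
    intro l
    have h1 := hSa l
    rw [← isAlgebraic_adjoin_iff] at h1 ⊢
    have h2 : (adjoin K (v '' S)).restrictScalars k ≤ adjoin k (fam x y '' G) := by
      intro z hz
      rw [mem_restrictScalars] at hz
      have h3 : ∀ a : K, algebraMap K (Rt n K) a ∈ adjoin k (fam x y '' G) := by
        intro a
        have ha : a ∈ adjoin k (Set.range x) := by rw [hx]; trivial
        rw [mem_adjoin_range_iff] at ha
        obtain ⟨p, q, rfl⟩ := ha
        rw [map_div₀]
        have h5 : ∀ p : MvPolynomial (Fin N) k, algebraMap K (Rt n K) (aeval x p) ∈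
            adjoin k (fam x y '' G) := by
          intro p
          rw [← MvPolynomial.aeval_algebraMap_apply]
          refine aeval_mem' _ _ (fun i => ?_) p
          apply IntermediateField.subset_adjoin
          refine ⟨Sum.inl i, ?_, rfl⟩
          rw [hG]
          exact Or.inl ⟨i, rfl⟩
        exact div_mem (h5 p) (h5 q)
      have h4 : v '' S = Set.range (fun i : S => v i) := by
        ext; simp
      rw [h4, mem_adjoin_range_iff] at hz
      obtain ⟨p, q, rfl⟩ := hz
      have h5 : ∀ p : MvPolynomial S K, aeval (fun i : S => v i) p ∈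
          adjoin k (fam x y '' G) := by
        intro p
        rw [aeval_def, eval₂_eq]
        refine sum_mem fun d _ => mul_mem (h3 _) (prod_mem fun i _ => pow_mem ?_ _)
        apply IntermediateField.subset_adjoin
        refine ⟨Sum.inr i, ?_, ?_⟩
        · rw [hG]
          exact Or.inr ⟨i, i.2, rfl⟩
        · rw [hv]
          rfl
      exact div_mem (h5 p) (h5 q)
    obtain ⟨p, hp0, hp⟩ := h1
    refine ⟨p.map (IntermediateField.inclusion h2 : _ →ₐ[k] _).toRingHom,
      (Polynomial.map_ne_zero_iff (RingHom.injective _)).mpr hp0, ?_⟩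
    rw [Polynomial.aeval_def, Polynomial.eval₂_map]
    have h6 : fam x y (Sum.inr l) = v l := by rw [hv]; rfl
    rw [h6]
    exact hp
  -- bad loci
  have hgl : ∀ l : Fin N ⊕ Fin n, ∃ g : MvPolynomial (Fin N) k, aeval x g ≠ 0 ∧
      ∀ (c : Fin N → k) (yc : Fin N → Rt n k), Good x P D c yc → eval c g ≠ 0 →
        IsAlgebraic (Algebra.adjoin k (fam c yc '' G)) (fam c yc (Sum.inr l)) :=
    fun l => algSpec hD hyP G (Sum.inr l) (hTa l)
  choose g hg hg' using hgl
  obtain ⟨gD, hgD, hgD'⟩ := evR_ne hD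
  obtain ⟨c, hc, hcG⟩ := hd (gD * ∏ l, g l) (by
    rw [map_mul, map_prod]
    exact mul_ne_zero hgD (Finset.prod_ne_zero_iff.mpr fun l _ => hg l))
  rw [map_mul, map_prod] at hcG
  have hcD : evR c n D ≠ 0 := hgD' c (left_ne_zero_of_mul hcG)
  have hcg : ∀ l, eval c (g l) ≠ 0 := fun l =>
    Finset.prod_ne_zero_iff.mp (right_ne_zero_of_mul hcG) l (Finset.mem_univ l)
  obtain ⟨yc, hyc⟩ : ∃ yc : Fin N → Rt n k, yc = fun i => evR c n (P i) / evR c n D := ⟨_, rfl⟩
  have hgood : Good x P D c yc := ⟨hc, hcD, fun i => by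
    rw [hyc]
    exact div_mul_cancel₀ _ hcD⟩
  obtain ⟨vc, hvc⟩ : ∃ vc : Fin N ⊕ Fin n → Rt n k, vc = Sum.elim yc
    (fun j => algebraMap (MvPolynomial (Fin n) k) (Rt n k) (X j)) := ⟨_, rfl⟩
  have hTc : ∀ l, IsAlgebraic (Algebra.adjoin k (vc '' S)) (vc l) := by
    intro l
    have h1 := hg' l c yc hgood (hcg l)
    have h2 : fam c yc (Sum.inr l) = vc l := by rw [hvc]; rfl
    rw [h2] at h1
    refine h1.adjoin_of_forall_isAlgebraic ?_
    rintro z ⟨⟨i, hi, rfl⟩, hz⟩
    rw [hG] at hi
    rcases hi with ⟨i, rfl⟩ | ⟨i, hi, rfl⟩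
    · exact isAlgebraic_algebraMap (⟨algebraMap k (Rt n k) (c i), Subalgebra.algebraMap_mem _ _⟩ :
        Algebra.adjoin k (vc '' S))
    · exfalso
      apply hz
      refine ⟨i, hi, ?_⟩
      rw [hvc]
      rfl
  have himg : vc '' S = Set.range (fun i : S => vc i) := by
    ext; simp
  have hind : AlgebraicIndependent k (fun i : S => vc i) := by
    have h1 : Algebra.IsAlgebraic (Algebra.adjoin k (Set.range (fun i : S => vc i))) (Rt n k) := by
      rw [← himg]
      refine isAlg_of_adjoin _ _ (adjoin_X k n) fun j => ?_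
      have h2 := hTc (Sum.inr j)
      rw [hvc] at h2 ⊢
      exact h2
    exact (Algebra.IsAlgebraic.isTranscendenceBasis_of_lift_le_trdeg_of_finite k
      (fun i : S => vc i) (by
        rw [trdeg_rt]
        simpa using hcard)).1
  have hindJ : AlgebraicIndependent k (fun i : J => yc i) := by
    have h1 := hind.comp (fun i : J => (⟨Sum.inl i, hJS ⟨i, i.2, rfl⟩⟩ : S)) (by
      intro a b hab
      have := congrArg Subtype.val hab
      exact Subtype.ext (Sum.inl_injective this))
    have h2 : ((fun i : S => vc i) ∘ fun i : J => (⟨Sum.inl i, hJS ⟨i, i.2, rfl⟩⟩ : S)) =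
        (fun i : J => yc i) := by
      funext i
      rw [hvc]
      rfl
    rw [← h2]
    exact h1
  -- the point
  have hzero : ∀ Q : MvPolynomial (Fin N) k, aeval x Q = 0 → aeval yc Q = 0 := by
    intro Q hQ
    have h1 : aeval (fam x y) (rename (Sum.inr ∘ Sum.inl) Q : MvPolynomial (Fin N ⊕ (Fin N ⊕ Fin n)) k)
        = 0 := by
      rw [aeval_rename]
      have h2 : fam x y ∘ (Sum.inr ∘ Sum.inl) = φ ∘ x := by
        rw [hy]
        rfl
      rw [h2]
      have h3 := congrArg φ hQ
      rwa [map_zero, MvPolynomial.comp_aeval_apply] at h3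
    have h2 := hgood.zero hyP h1
    rw [aeval_rename] at h2
    exact h2
  refine embed hx (c := yc) hzero ?_
  intro Q hQ
  by_contra hne
  obtain ⟨t, ht, r, hr, hr'⟩ := (hKa.isAlgebraic (aeval x Q)).exists_nonzero_eq_adjoin_mul
    (mem_nonZeroDivisors_of_ne_zero hne)
  have hrange : ∀ r : Algebra.adjoin k (x '' J), ∃ R : MvPolynomial J k,
      aeval (fun i : J => x i) R = (r : K) := by
    intro r
    have hxJ : x '' J = Set.range (fun i : J => x i) := by
      ext; simp
    have h3 : (r : K) ∈ Algebra.adjoin k (Set.range (fun i : J => x i)) := by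
      rw [← hxJ]
      exact r.2
    rw [Algebra.adjoin_range_eq_range_aeval] at h3
    exact h3
  have htA : ∃ A : MvPolynomial (Fin N) k, aeval x A = t := by
    clear hr'
    induction ht using Algebra.adjoin_induction with
    | mem z hz =>
      rw [Set.mem_singleton_iff] at hz
      exact ⟨Q, hz.symm⟩
    | algebraMap r =>
      obtain ⟨R, hR⟩ := hrange r
      refine ⟨rename Subtype.val R, ?_⟩
      rw [aeval_rename]
      exact hR
    | add a b _ _ ha hb =>
      obtain ⟨A, hA⟩ := ha
      obtain ⟨B, hB⟩ := hb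
      exact ⟨A + B, by rw [map_add, hA, hB]⟩
    | mul a b _ _ ha hb =>
      obtain ⟨A, hA⟩ := ha
      obtain ⟨B, hB⟩ := hb
      exact ⟨A * B, by rw [map_mul, hA, hB]⟩
  obtain ⟨A, hA⟩ := htA
  obtain ⟨R, hR⟩ := hrange r
  have h3 : aeval x (Q * A - rename Subtype.val R) = 0 := by
    rw [map_sub, map_mul, aeval_rename, hA, hr']
    change _ - aeval (fun i : J => x i) R = 0
    rw [hR]
    exact sub_self _
  have h4 := hzero _ h3
  rw [map_sub, map_mul, hQ, zero_mul, zero_sub, neg_eq_zero, aeval_rename] at h4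
  have h5 : R = 0 := by
    apply hindJ
    rw [map_zero]
    exact h4
  apply hr
  apply Subtype.ext
  rw [← hR, h5, map_zero]
  rfl

end

end Pool.Agent.R867.Mov
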