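import Pool.Agent.R867.Mov.Cyc

/-! Taylor expansion of a polynomial in the direction of one variable. -/

set_option autoImplicit false

namespace Pool.Agent.R867.Mov

open MvPolynomial

universe u v w

section Tay

variable {k : Type u} [Field k] {ι : Type w} [DecidableEq ι]

/-- the Taylor expansion of `f` in the direction of the variable `j` -/
noncomputable def tay (j : ι) : MvPolynomial ι k →ₐ[k] Polynomial (MvPolynomial ι k) :=
  aeval (fun i => if i = j then Polynomial.C (X j) + Polynomial.X else Polynomial.C (X i))

theorem tay_X_self (j : ι) :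
    tay (k := k) j (X j) = Polynomial.C (X j) + Polynomial.X := by
  unfold tay
  rw [aeval_X, if_pos rfl]

theorem tay_X_ne {i j : ι} (h : i ≠ j) : tay (k := k) j (X i) = Polynomial.C (X i) := by
  unfold tay
  rw [aeval_X, if_neg h]

theorem tay_C (j : ι) (a : k) : tay j (C a : MvPolynomial ι k) = Polynomial.C (C a) := by
  unfold tay
  rw [aeval_C]
  rfl

theorem tay_zero (j : ι) (f : MvPolynomial ι k) : (tay j f).coeff 0 = f := by
  induction f using MvPolynomial.induction_on with
  | C a => rw [tay_C, Polynomial.coeff_C_zero]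
  | add p q hp hq => rw [map_add, Polynomial.coeff_add, hp, hq]
  | mul_X p i hp =>
    rw [map_mul, Polynomial.mul_coeff_zero, hp]
    by_cases h : i = j
    · rw [h, tay_X_self]
      simp
    · rw [tay_X_ne h, Polynomial.coeff_C_zero]

theorem tay_one (j : ι) (f : MvPolynomial ι k) : (tay j f).coeff 1 = pderiv j f := by
  induction f using MvPolynomial.induction_on with
  | C a => rw [tay_C, Polynomial.coeff_C, if_neg one_ne_zero, pderiv_C]
  | add p q hp hq => rw [map_add, Polynomial.coeff_add, hp, hq, map_add]
  | mul_X p i hp =>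
    rw [map_mul, Polynomial.mul_coeff_one, hp, tay_zero, tay_zero, pderiv_mul]
    by_cases h : i = j
    · rw [h, tay_X_self]
      simp [pderiv_X_self]
      ring
    · rw [tay_X_ne h, Polynomial.coeff_C, if_neg one_ne_zero, pderiv_X_of_ne h]
      ring

theorem tay_natDegree (j : ι) (f : MvPolynomial ι k) : (tay j f).natDegree ≤ degreeOf j f := by
  classical
  have h1 : tay j f = ∑ m ∈ f.support, tay j (monomial m (coeff m f)) := by
    conv_lhs => rw [f.as_sum]
    rw [map_sum]
  rw [h1]
  refine Polynomial.natDegree_sum_le_of_forall_le _ _ fun m hm => ?_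
  refine le_trans ?_ (monomial_le_degreeOf j hm)
  rw [monomial_eq, map_mul, tay_C]
  refine (Polynomial.natDegree_C_mul_le _ _).trans ?_
  rw [Finsupp.prod, map_prod]
  refine (Polynomial.natDegree_prod_le _ _).trans ?_
  have h2 : ∀ i ∈ m.support, (tay j (X i ^ m i) : Polynomial (MvPolynomial ι k)).natDegree ≤
      if i = j then m j else 0 := by
    intro i _
    rw [map_pow]
    by_cases h : i = j
    · rw [h, tay_X_self, if_pos rfl]
      refine (Polynomial.natDegree_pow_le).trans ?_
      have h3 : (Polynomial.C (X j) + Polynomial.X : Polynomial (MvPolynomial ι k)).natDegree ≤ 1 := by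
        rw [add_comm]
        exact (Polynomial.natDegree_X_add_C _).le
      calc _ ≤ m j * 1 := Nat.mul_le_mul_left _ h3
        _ = m j := mul_one _
    · rw [tay_X_ne h, if_neg h, ← Polynomial.C_pow, Polynomial.natDegree_C]
  refine (Finset.sum_le_sum h2).trans ?_
  rw [Finset.sum_ite_eq']
  split_ifs
  · exact le_rfl
  · exact Nat.zero_le _

theorem tay_coeff_zero {j : ι} {f : MvPolynomial ι k} {d i : ℕ} (h : degreeOf j f ≤ d)
    (hi : d < i) : (tay j f).coeff i = 0 :=
  Polynomial.coeff_eq_zero_of_natDegree_lt (lt_of_le_of_lt ((tay_natDegree j f).trans h) hi)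

/-- the value at a shifted point -/
theorem tay_eval {E : Type v} [Field E] [Algebra k E] (x : ι → E) (j : ι) (h : E)
    (f : MvPolynomial ι k) : aeval (Function.update x j (x j + h)) f = ev2 x h (tay j f) := by
  have h1 : (aeval (Function.update x j (x j + h)) : MvPolynomial ι k →ₐ[k] E) =
      (ev2 x h).comp (tay j) := by
    apply MvPolynomial.algHom_ext
    intro i
    rw [AlgHom.comp_apply, aeval_X]
    by_cases hi : i = j
    · rw [hi, tay_X_self, Function.update_self, map_add, ev2_C, ev2_X, aeval_X]
    · rw [tay_X_ne hi, Function.update_of_ne hi, ev2_C, aeval_X]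
  rw [h1]
  rfl

theorem tay_sum {E : Type v} [Field E] [Algebra k E] (x : ι → E) (j : ι) (h : E)
    (f : MvPolynomial ι k) {d : ℕ} (hd : degreeOf j f ≤ d) :
    aeval (Function.update x j (x j + h)) f =
      ∑ i ∈ Finset.range (d + 1), aeval x ((tay j f).coeff i) * h ^ i := by
  rw [tay_eval, ev2_apply, Polynomial.eval₂_eq_sum_range' _ (lt_of_le_of_lt
    ((tay_natDegree j f).trans hd) (Nat.lt_succ_self d))]
  rfl

end Tay

end Pool.Agent.R867.Mov
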